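import Pool.Agent.H79.GP.GDF
import Pool.Agent.H79.MZ.ALI
import Pool.Agent.H44.RR.AL2

/-!
# The phases along inverse branches, for a quadratic differential fixed by the push forward (as AL1, ALI)
-/

set_option autoImplicit false

open MeasureTheory Metric Set Polynomial Filter Topology

namespace Pool.Agent.H79.GP

open Pool.Agent.H44.Fatou Pool.Agent.H32.BT Pool.Agent.H79.Eul Pool.Agent.H79.Par Pool.Agent.H61.TT
open Pool.Agent.H35.EX Pool.Agent.H44.RR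

variable {d : ℕ} {a b : Polynomial ℂ} {p B : ℕ → ℂ}

private theorem al_alg (s : Finset ℂ) (z : ℂ → ℂ) (w : ℂ) (hw : w = ∑ y ∈ s, z y)
    (hn : ∑ y ∈ s, ‖z y‖ = ‖w‖) : ∀ y ∈ s, ∃ ρ : ℝ, 0 ≤ ρ ∧ ρ ≤ 1 ∧ z y = (ρ : ℂ) * w := by
  intro y hy
  have hle : ‖z y‖ ≤ ‖w‖ := by
    rw [← hn]
    exact Finset.single_le_sum (f := fun y => ‖z y‖) (fun i _ => norm_nonneg _) hy
  by_cases h0 : w = 0
  · refine ⟨0, le_rfl, by norm_num, ?_⟩
    rw [h0, norm_zero] at hle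
    have h1 : z y = 0 := norm_le_zero_iff.mp hle
    rw [h1, h0]
    simp
  · have hpos : 0 < ‖w‖ := norm_pos_iff.mpr h0
    have hposC : ((‖w‖ : ℝ) : ℂ) ≠ 0 := by
      exact_mod_cast hpos.ne'
    obtain ⟨u, hu⟩ : ∃ u : ℂ, u = (starRingEnd ℂ) w / ((‖w‖ : ℝ) : ℂ) := ⟨_, rfl⟩
    have hconj : (starRingEnd ℂ) w * w = ((‖w‖ : ℝ) : ℂ) ^ 2 := by
      rw [mul_comm, Complex.mul_conj, Complex.normSq_eq_norm_sq]
      push_cast
      rfl
    have huw : u * w = ((‖w‖ : ℝ) : ℂ) := by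
      rw [hu, div_mul_eq_mul_div, hconj, pow_two, mul_div_assoc, div_self hposC, mul_one]
    have hun : ‖u‖ = 1 := by
      have h1 : ‖u‖ * ‖w‖ = ‖w‖ := by
        rw [← norm_mul, huw, Complex.norm_real, norm_norm]
      have h2 : ‖u‖ * ‖w‖ = 1 * ‖w‖ := by rw [h1, one_mul]
      exact mul_right_cancel₀ hpos.ne' h2
    have hre : ∀ i ∈ s, (u * z i).re ≤ ‖z i‖ := by
      intro i _
      have h1 := Complex.re_le_norm (u * z i)
      rw [norm_mul, hun, one_mul] at h1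
      exact h1
    have hsum : ∑ i ∈ s, (u * z i).re = ∑ i ∈ s, ‖z i‖ := by
      rw [hn, ← Complex.re_sum, ← Finset.mul_sum, ← hw, huw, Complex.ofReal_re]
    have heq := (Finset.sum_eq_sum_iff_of_le hre).mp hsum y hy
    have him : (u * z y).im = 0 := by
      have h1 : ‖u * z y‖ = ‖z y‖ := by rw [norm_mul, hun, one_mul]
      have h2 := Complex.sq_norm (u * z y)
      rw [h1, Complex.normSq_apply, heq] at h2
      have h3 : (u * z y).im * (u * z y).im = 0 := by nlinarith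
      exact mul_self_eq_zero.mp h3
    have hreal : u * z y = ((‖z y‖ : ℝ) : ℂ) := by
      apply Complex.ext
      · rw [heq, Complex.ofReal_re]
      · rw [him, Complex.ofReal_im]
    refine ⟨‖z y‖ / ‖w‖, by positivity, ?_, ?_⟩
    · rw [div_le_one hpos]
      exact hle
    · have h1 : z y * ((‖w‖ : ℝ) : ℂ) = ((‖z y‖ : ℝ) : ℂ) * w := by
        rw [← hreal, ← huw]
        ring
      push_cast
      rw [div_mul_eq_mul_div, eq_div_iff hposC]
      exact h1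

theorem al_fib (h : RatD d a b) (hs : SerF a b p B) :
    ∀ᵐ x : ℂ, ∀ y ∈ fs a b x, ∃ ρ : ℝ, 0 ≤ ρ ∧ ρ ≤ 1 ∧
      qq p B y / dg a b y ^ 2 = (ρ : ℂ) * qq p B x := by
  obtain ⟨F, hF⟩ : ∃ F : ℂ → ENNReal,
      ∀ y, F y = ‖qq p B y‖ₑ / ENNReal.ofReal (‖dg a b y‖ ^ 2) := ⟨_, fun _ => rfl⟩
  have hFm : Measurable F := by
    have : F = fun y => ‖qq p B y‖ₑ / ENNReal.ofReal (‖dg a b y‖ ^ 2) := funext hF
    rw [this]
    exact (qq_meas p B).enorm.div (ENNReal.measurable_ofReal.comp ((measurable_dg.norm).pow_const 2))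
  have hsum : ∀ T : Set ℂ, MeasurableSet T → volume T < ⊤ →
      ∫⁻ x in T, ∑ y ∈ fs a b x, F y = ∫⁻ x in T, ‖qq p B x‖ₑ := by
    intro T hT _
    rw [area h hT hFm, ← inv_mass h (qq_meas _ _) hs.fin hs.push hT]
    apply lintegral_congr_ae
    filter_upwards [ae_restrict_of_ae (ae_ww h), ae_restrict_mem (measurableSet_pre hT)] with y hy1 hy2
    have hdg : dg a b y ≠ 0 := (dg_ne hy2.1).2 hy1
    have hpos : 0 < ‖dg a b y‖ ^ 2 := by positivity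
    rw [hF, ENNReal.div_mul_cancel (ENNReal.ofReal_pos.mpr hpos).ne' ENNReal.ofReal_ne_top]
  have hae : (fun x => ∑ y ∈ fs a b x, F y) =ᵐ[volume] fun x => ‖qq p B x‖ₑ :=
    ae_eq_of_forall_setLIntegral_eq_of_sigmaFinite₀ (fs_aem h hFm) (qq_meas p B).enorm.aemeasurable hsum
  have hreg : ∀ᵐ x : ℂ, RegV d a b x := by
    rw [ae_iff]
    exact (reg_finite h).measure_zero volume
  filter_upwards [hae, hs.push, hreg] with x h1 h2 h3
  apply al_alg (fs a b x) (fun y => qq p B y / dg a b y ^ 2) (qq p B x) h2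
  have h4 : ∀ y ∈ fs a b x, F y = ENNReal.ofReal ‖qq p B y / dg a b y ^ 2‖ := by
    intro y hy
    have hdg : dg a b y ≠ 0 := (dg_ne (h3.hb y hy)).2 (h3.hw y hy)
    have hpos : 0 < ‖dg a b y‖ ^ 2 := by positivity
    rw [hF, norm_div, norm_pow, ENNReal.ofReal_div_of_pos hpos, ofReal_norm_eq_enorm]
  have h5 : ENNReal.ofReal (∑ y ∈ fs a b x, ‖qq p B y / dg a b y ^ 2‖) =
      ENNReal.ofReal ‖qq p B x‖ := by
    rw [ENNReal.ofReal_sum_of_nonneg (fun y _ => norm_nonneg _), ofReal_norm_eq_enorm, ← h1]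
    exact Finset.sum_congr rfl fun y hy => (h4 y hy).symm
  exact (ENNReal.ofReal_eq_ofReal_iff (Finset.sum_nonneg fun y _ => norm_nonneg _)
    (norm_nonneg _)).mp h5

theorem al_pt2 (h : RatD d a b) (hs : SerF a b p B) :
    ∀ᵐ y : ℂ, b.eval y ≠ 0 → ∃ ρ : ℝ, 0 ≤ ρ ∧
      qq p B y = (ρ : ℂ) * dg a b y ^ 2 * qq p B (gg a b y) := by
  obtain ⟨N, hN⟩ : ∃ N : Set ℂ, N = {x | ¬ ∀ y ∈ fs a b x, ∃ ρ : ℝ, 0 ≤ ρ ∧ ρ ≤ 1 ∧
      qq p B y / dg a b y ^ 2 = (ρ : ℂ) * qq p B x} := ⟨_, rfl⟩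
  have hN0 : volume N = 0 := by
    rw [hN]
    exact al_fib h hs
  have h1 : ∀ᵐ y : ℂ, y ∉ pre a b N := by
    rw [ae_iff]
    simp only [not_not, Set.ofPred_mem_eq]
    exact pre_null h hN0
  filter_upwards [h1, ae_ww h] with y hy hw hb
  have h2 : ¬ (gg a b y ∈ N) := fun h3 => hy ⟨hb, h3⟩
  rw [hN] at h2
  have h4 : ∀ y' ∈ fs a b (gg a b y), ∃ ρ : ℝ, 0 ≤ ρ ∧ ρ ≤ 1 ∧
      qq p B y' / dg a b y' ^ 2 = (ρ : ℂ) * qq p B (gg a b y) := by
    by_contra h5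
    exact h2 h5
  obtain ⟨ρ, h5, -, h6⟩ := h4 y ((mem_fs h _ _).2 ⟨hb, rfl⟩)
  have hdg : dg a b y ≠ 0 := (dg_ne hb).2 hw
  refine ⟨ρ, h5, ?_⟩
  rw [div_eq_iff (pow_ne_zero 2 hdg)] at h6
  rw [h6]
  ring

theorem al_n (h : RatD d a b) (hs : SerF a b p B) :
    ∀ᵐ y : ℂ, ∀ n : ℕ, (∀ j < n, b.eval ((gg a b)^[j] y) ≠ 0) → ∃ ρ : ℝ, 0 ≤ ρ ∧
      qq p B y = (ρ : ℂ) * (∏ j ∈ Finset.range n, dg a b ((gg a b)^[j] y)) ^ 2 *
        qq p B ((gg a b)^[n] y) := by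
  have h0 := al_pt2 h hs
  obtain ⟨G, hG⟩ : ∃ G : Set ℂ, G = {y | ¬ (b.eval y ≠ 0 → ∃ ρ : ℝ, 0 ≤ ρ ∧
      qq p B y = (ρ : ℂ) * dg a b y ^ 2 * qq p B (gg a b y))} := ⟨_, rfl⟩
  have hG0 : volume G = 0 := by
    rw [hG]
    exact h0
  have h1 : ∀ n : ℕ, volume {y : ℂ | ¬ ((∀ j < n, b.eval ((gg a b)^[j] y) ≠ 0) →
      (gg a b)^[n] y ∉ G)} = 0 := by
    intro n
    induction n with
    | zero =>
      refine measure_mono_null ?_ hG0
      intro y hy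
      by_contra h2
      exact hy fun _ => h2
    | succ n ih =>
      refine measure_mono_null ?_ (pre_null h ih)
      intro y hy
      rw [Set.mem_ofPred_eq] at hy
      push Not at hy
      obtain ⟨hy1, hy2⟩ := hy
      refine ⟨hy1 0 (Nat.succ_pos n), ?_⟩
      rw [Set.mem_ofPred_eq]
      push Not
      refine ⟨fun j hj => ?_, ?_⟩
      · have h3 := hy1 (j + 1) (by omega)
        rwa [Function.iterate_succ_apply] at h3
      · rwa [Function.iterate_succ_apply] at hy2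
  have h2 : ∀ᵐ y : ℂ, ∀ n : ℕ, (∀ j < n, b.eval ((gg a b)^[j] y) ≠ 0) →
      (gg a b)^[n] y ∉ G := by
    rw [ae_all_iff]
    exact h1
  filter_upwards [h2] with y hy n
  induction n with
  | zero =>
    intro _
    exact ⟨1, zero_le_one, by simp⟩
  | succ n ih =>
    intro hb
    obtain ⟨ρ, h3, h4⟩ := ih (fun j hj => hb j (by omega))
    have h5 := hy n (fun j hj => hb j (by omega))
    rw [hG, Set.mem_ofPred_eq, not_not] at h5
    obtain ⟨ρ', h6, h7⟩ := h5 (hb n (Nat.lt_succ_self n))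
    refine ⟨ρ * ρ', mul_nonneg h3 h6, ?_⟩
    rw [Finset.prod_range_succ, Function.iterate_succ_apply']
    push_cast
    linear_combination h4 + ((ρ : ℂ) *
      (∏ j ∈ Finset.range n, dg a b ((gg a b)^[j] y)) ^ 2) * h7

theorem it_deriv (n : ℕ) (y : ℂ) (hb : ∀ j < n, b.eval ((gg a b)^[j] y) ≠ 0) :
    HasDerivAt ((gg a b)^[n]) (∏ j ∈ Finset.range n, dg a b ((gg a b)^[j] y)) y := by
  induction n with
  | zero =>
    rw [Function.iterate_zero, Finset.range_zero, Finset.prod_empty]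
    exact hasDerivAt_id y
  | succ n ih =>
    have h1 := ih fun j hj => hb j (by omega)
    have h2 := (hasDerivAt_gg (a := a) (hb n (Nat.lt_succ_self n))).comp y h1
    rw [Function.iterate_succ', Finset.prod_range_succ, mul_comm]
    exact h2

theorem al_g (h : RatD d a b) (hs : SerF a b p B) {U : Set ℂ} (hU : IsOpen U) {g : ℂ → ℂ}
    (hg : DifferentiableOn ℂ g U) {n : ℕ} (hb : ∀ z ∈ U, ∀ j < n, b.eval ((gg a b)^[j] (g z)) ≠ 0)
    (hi : ∀ z ∈ U, (gg a b)^[n] (g z) = z) :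
    ∀ᵐ z : ℂ, z ∈ U → ∃ ρ : ℝ, 0 ≤ ρ ∧ qq p B (g z) * deriv g z ^ 2 = (ρ : ℂ) * qq p B z := by
  obtain ⟨N, hN⟩ : ∃ N : Set ℂ, N = {y | ¬ ∀ n : ℕ, (∀ j < n, b.eval ((gg a b)^[j] y) ≠ 0) →
      ∃ ρ : ℝ, 0 ≤ ρ ∧ qq p B y = (ρ : ℂ) *
        (∏ j ∈ Finset.range n, dg a b ((gg a b)^[j] y)) ^ 2 * qq p B ((gg a b)^[n] y)} := ⟨_, rfl⟩
  have hN0 : volume N = 0 := by
    rw [hN]
    exact al_n h hs
  have hnull : volume ((gg a b)^[n] '' (N ∩ g '' U)) = 0 := by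
    apply addHaar_image_eq_zero_of_differentiableOn_of_addHaar_eq_zero
    · rintro y ⟨-, z, hz, rfl⟩
      exact ((it_deriv n (g z) (hb z hz)).differentiableAt.restrictScalars ℝ).differentiableWithinAt
    · exact measure_mono_null Set.inter_subset_left hN0
  have hae : ∀ᵐ z : ℂ, z ∉ (gg a b)^[n] '' (N ∩ g '' U) := by
    rw [ae_iff]
    simp only [not_not]
    exact hnull
  filter_upwards [hae] with z hz hzU
  have h1 : g z ∉ N := fun h2 => hz ⟨g z, ⟨h2, z, hzU, rfl⟩, hi z hzU⟩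
  rw [hN] at h1
  have h2 : ∀ n : ℕ, (∀ j < n, b.eval ((gg a b)^[j] (g z)) ≠ 0) →
      ∃ ρ : ℝ, 0 ≤ ρ ∧ qq p B (g z) = (ρ : ℂ) *
        (∏ j ∈ Finset.range n, dg a b ((gg a b)^[j] (g z))) ^ 2 *
          qq p B ((gg a b)^[n] (g z)) := by
    by_contra h5
    exact h1 h5
  obtain ⟨ρ, h3, h4⟩ := h2 n (hb z hzU)
  rw [hi z hzU] at h4
  refine ⟨ρ, h3, ?_⟩
  have h5 := it_deriv (a := a) n (g z) (hb z hzU)
  have h6 : HasDerivAt g (deriv g z) z := ((hg z hzU).differentiableAt (hU.mem_nhds hzU)).hasDerivAt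
  have h7 := h5.comp z h6
  have h8 : HasDerivAt ((gg a b)^[n] ∘ g) 1 z := by
    refine (hasDerivAt_id z).congr_of_eventuallyEq ?_
    filter_upwards [hU.mem_nhds hzU] with w hw
    exact hi w hw
  have h9 := h7.unique h8
  rw [h4]
  linear_combination ((ρ : ℂ) * qq p B z *
    ((∏ j ∈ Finset.range n, dg a b ((gg a b)^[j] (g z))) * deriv g z + 1)) * h9

end Pool.Agent.H79.GP
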