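import Pool.Agent.H79.MZ.BSC
import Pool.Agent.H79.MZ.BKG
import Pool.Agent.H79.MZ.APX
import Pool.Agent.H79.MZ.ALI
import Pool.Agent.H44.RR.RSN
import Pool.Agent.H79.GP.GAL
import Pool.Agent.H79.GP.GRS

/-!
# Transversality for an infinite orbit (as BIN)
-/

set_option autoImplicit false

open MeasureTheory Metric Set Polynomial Filter Topology

namespace Pool.Agent.H79.GP

open Pool.Agent.H44.Fatou Pool.Agent.H32.BT Pool.Agent.H79.Eul Pool.Agent.H79.Par Pool.Agent.H61.TT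
open Pool.Agent.H35.EX Pool.Agent.H44.RR Pool.Agent.H79.MZ

private theorem bin_inj {d : ℕ} {v0 : E d} {p B : ℕ → ℂ} (hc : Cr v0 p B)
    (hinf : (Set.range fun k => p (k + 1)).Infinite) : Function.Injective fun k => p (k + 1) := by
  have key : ∀ i j, i < j → p (i + 1) ≠ p (j + 1) := by
    intro i j hij heq
    have h1 : ∀ m, p (i + 1 + m) = p (j + 1 + m) := by
      intro m
      induction m with
      | zero => exact heq
      | succ m ih =>
        have e1 : i + 1 + (m + 1) = (i + 1 + m) + 1 := by omega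
        have e2 : j + 1 + (m + 1) = (j + 1 + m) + 1 := by omega
        rw [e1, e2, ← hc.orb (i + 1 + m), ← hc.orb (j + 1 + m), ih]
    have h2 : ∀ k, ∃ l < j, p (l + 1) = p (k + 1) := by
      intro k
      induction k using Nat.strong_induction_on with
      | _ k ih =>
        by_cases hk : k < j
        · exact ⟨k, hk, rfl⟩
        · push Not at hk
          obtain ⟨l, hl, hl2⟩ := ih (k - (j - i)) (by omega)
          refine ⟨l, hl, ?_⟩
          rw [hl2]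
          have h3 := h1 (k - j)
          have e1 : i + 1 + (k - j) = k - (j - i) + 1 := by omega
          have e2 : j + 1 + (k - j) = k + 1 := by omega
          rw [e1, e2] at h3
          exact h3
    refine hinf ?_
    refine ((Set.finite_Iio j).image fun l => p (l + 1)).subset ?_
    rintro _ ⟨k, rfl⟩
    obtain ⟨l, hl, hl2⟩ := h2 k
    exact ⟨l, hl, hl2⟩
  intro i j hij
  rcases lt_trichotomy i j with h | h | h
  · exact absurd hij (key i j h)
  · exact h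
  · exact absurd hij.symm (key j i h)

private theorem bin_vol (x : ℂ) {η : ℝ} (hη : 0 < η) :
    volume (ball x η) = ENNReal.ofReal (η ^ 2 * Real.pi) := by
  rw [Complex.volume_ball, ← ENNReal.ofReal_pow hη.le, ENNReal.ofReal_mul (by positivity)]
  congr 1
  rw [← NNReal.coe_real_pi, ENNReal.ofReal_coe_nnreal]

private theorem bin_est {q g : ℂ → ℂ} {x w β R1 : ℂ} {s D ε C2 : ℝ} {k : ℂ → ℂ} {U : Set ℂ}
    (hk : ∀ z, k z = deriv g z ^ 2 / (β * (g z - w))) (hR1 : R1 ≠ 0)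
    (hs : 0 < s) (hε : 0 ≤ ε) (hD : 0 < D) (hC2 : 0 ≤ C2)
    (hkx : 1 / D ≤ ‖k x‖)
    (hosc : ∀ z ∈ ball x s, ‖k z / k x - 1‖ ≤ C2)
    (hsub : ball x s ⊆ U)
    (hsca : ∫⁻ z in U, ‖q (g z) * deriv g z ^ 2 / β -
        R1 * deriv g z ^ 2 / (β * (g z - w))‖ₑ ≤ ENNReal.ofReal ε) (hβ : β ≠ 0) :
    ∫⁻ z in ball x s, ‖q (g z) * deriv g z ^ 2 / (β * R1 * k x) - 1‖ₑ ≤
      ENNReal.ofReal (ε * (D / ‖R1‖) + C2 * (s ^ 2 * Real.pi)) := by
  have hkx0 : 0 < ‖k x‖ := lt_of_lt_of_le (by positivity) hkx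
  have hkxne : k x ≠ 0 := norm_pos_iff.1 hkx0
  have hR1n : 0 < ‖R1‖ := norm_pos_iff.2 hR1
  have h1 : ∀ z ∈ ball x s, ‖q (g z) * deriv g z ^ 2 / (β * R1 * k x) - 1‖ₑ ≤
      ‖q (g z) * deriv g z ^ 2 / β - R1 * deriv g z ^ 2 / (β * (g z - w))‖ₑ *
        ENNReal.ofReal (D / ‖R1‖) + ENNReal.ofReal C2 := by
    intro z hz
    have e1 : q (g z) * deriv g z ^ 2 / (β * R1 * k x) - 1 =
        (q (g z) * deriv g z ^ 2 / β - R1 * deriv g z ^ 2 / (β * (g z - w))) * (R1 * k x)⁻¹ +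
          (k z / k x - 1) := by
      have e2 : R1 * deriv g z ^ 2 / (β * (g z - w)) = R1 * k z := by
        rw [hk z]
        ring
      rw [e2]
      field_simp
      ring
    rw [e1]
    refine (enorm_add_le _ _).trans (add_le_add ?_ ?_)
    · rw [enorm_mul]
      refine mul_le_mul_right ?_ _
      rw [← ofReal_norm_eq_enorm]
      apply ENNReal.ofReal_le_ofReal
      rw [norm_inv, norm_mul, mul_inv]
      have h2 : ‖k x‖⁻¹ ≤ D := by
        rw [inv_le_comm₀ hkx0 (by positivity)]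
        rwa [one_div] at hkx
      calc ‖R1‖⁻¹ * ‖k x‖⁻¹ ≤ ‖R1‖⁻¹ * D := by gcongr
        _ = D / ‖R1‖ := by ring
    · rw [← ofReal_norm_eq_enorm]
      exact ENNReal.ofReal_le_ofReal (hosc z hz)
  calc ∫⁻ z in ball x s, ‖q (g z) * deriv g z ^ 2 / (β * R1 * k x) - 1‖ₑ ≤
        ∫⁻ z in ball x s, (‖q (g z) * deriv g z ^ 2 / β -
          R1 * deriv g z ^ 2 / (β * (g z - w))‖ₑ *
          ENNReal.ofReal (D / ‖R1‖) + ENNReal.ofReal C2) :=
        setLIntegral_mono' measurableSet_ball h1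
    _ = (∫⁻ z in ball x s, ‖q (g z) * deriv g z ^ 2 / β -
          R1 * deriv g z ^ 2 / (β * (g z - w))‖ₑ) * ENNReal.ofReal (D / ‖R1‖) +
          ENNReal.ofReal C2 * ENNReal.ofReal (s ^ 2 * Real.pi) := by
        rw [lintegral_add_right _ measurable_const, lintegral_mul_const' _ _ ENNReal.ofReal_ne_top,
          setLIntegral_const, bin_vol x hs]
    _ ≤ ENNReal.ofReal ε * ENNReal.ofReal (D / ‖R1‖) +
          ENNReal.ofReal C2 * ENNReal.ofReal (s ^ 2 * Real.pi) := by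
        gcongr
        exact (lintegral_mono_set hsub).trans hsca
    _ = ENNReal.ofReal (ε * (D / ‖R1‖) + C2 * (s ^ 2 * Real.pi)) := by
        rw [← ENNReal.ofReal_mul hε, ← ENNReal.ofReal_mul hC2,
          ← ENNReal.ofReal_add (by positivity) (by positivity)]

/-- finitely many distinct points are separated -/
private theorem bin_sep {M : ℕ} {x : Fin (M + 1) → ℂ} (hx : Function.Injective x) {δ : ℝ}
    (hδ : 0 < δ) : ∃ η : ℝ, 0 < η ∧ η ≤ δ ∧ ∀ l l', l ≠ l' → 2 * η ≤ ‖x l - x l'‖ := by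
  have h1 : ∀ l l', ∀ᶠ η : ℝ in 𝓝[>] 0, l ≠ l' → 2 * η ≤ ‖x l - x l'‖ := by
    intro l l'
    by_cases h : l = l'
    · exact Eventually.of_forall fun _ hne => absurd h hne
    · have h2 : 0 < ‖x l - x l'‖ := norm_pos_iff.2 (sub_ne_zero.2 fun h3 => h (hx h3))
      have h3 : ∀ᶠ η : ℝ in 𝓝[>] 0, η ∈ Ioo (0 : ℝ) (‖x l - x l'‖ / 2) :=
        Ioo_mem_nhdsGT (by positivity)
      filter_upwards [h3] with η hη _
      linarith [hη.2]
  have h2 : ∀ᶠ η : ℝ in 𝓝[>] 0, ∀ l l', l ≠ l' → 2 * η ≤ ‖x l - x l'‖ := by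
    rw [eventually_all]
    intro l
    rw [eventually_all]
    exact h1 l
  have h3 : ∀ᶠ η : ℝ in 𝓝[>] 0, η ∈ Ioo (0 : ℝ) δ := Ioo_mem_nhdsGT hδ
  obtain ⟨η, hη1, hη2⟩ := (h2.and h3).exists
  exact ⟨η, hη2.1, hη2.2.le, hη1⟩

/-- some point avoids all points of the exceptional set -/
private theorem bin_pig {M : ℕ} {x : Fin (M + 1) → ℂ} {η : ℝ}
    (hx : ∀ l l', l ≠ l' → 2 * η ≤ ‖x l - x l'‖) {S : Finset ℂ} (hS : S.card ≤ M) :
    ∃ l, ∀ ζ ∈ S, η ≤ ‖x l - ζ‖ := by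
  by_contra hcon
  push Not at hcon
  choose ζ hζ1 hζ2 using hcon
  obtain ⟨l, -, l', -, hne, heq⟩ := Finset.exists_ne_map_eq_of_card_lt_of_maps_to
    (s := (Finset.univ : Finset (Fin (M + 1)))) (t := S) (f := ζ)
    (by rw [Finset.card_univ, Fintype.card_fin]; omega) (fun l _ => hζ1 l)
  have h1 := hx l l' hne
  have h2 : ‖x l - x l'‖ ≤ ‖x l - ζ l‖ + ‖x l' - ζ l'‖ := by
    have h3 : x l - x l' = (x l - ζ l) - (x l' - ζ l') := by
      rw [heq]
      ring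
    rw [h3]
    exact norm_sub_le _ _
  linarith [hζ2 l, hζ2 l']

theorem bin_falseF {d : ℕ} {v0 : E d} {p B : ℕ → ℂ} {K : Set ℂ} {δ : ℝ} {M : ℕ} {T : Set ℕ}
    (h : GoodB v0 p B K δ M T) (hs : SerF (pol v0.1) (pol v0.2) p B)
    (hinf : (Set.range fun k => p (k + 1)).Infinite) : False := by
  have hc := h.cr
  have hδ := h.hδ
  have hRat : RatD d (pol v0.1) (pol v0.2) := ⟨h.hd, h.cop, h.deg⟩
  have hpinj := bin_inj hc hinf
  -- the limit point
  obtain ⟨φ1, hφ1, hφT⟩ := extraction_of_frequently_atTop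
    ((Nat.frequently_atTop_iff_infinite (p := fun n => n ∈ T)).2 h.inf)
  obtain ⟨Rp, hRp⟩ := hc.pb
  obtain ⟨y, -, φ2, hφ2, hy⟩ := tendsto_subseq_of_bounded
    (s := closedBall (0 : ℂ) Rp) isBounded_closedBall (x := fun i => p (φ1 i + 1))
    (fun i => by rw [mem_closedBall, dist_zero_right]; exact hRp _)
  have hnmono : StrictMono (fun i => φ1 (φ2 i)) := hφ1.comp hφ2
  have hni : Tendsto (fun i => φ1 (φ2 i)) atTop atTop := hnmono.tendsto_atTop
  have hy' : Tendsto (fun i => p (φ1 (φ2 i) + 1)) atTop (𝓝 y) := hy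
  have hclose : ∀ᶠ i in atTop, dist (p (φ1 (φ2 i) + 1)) y < δ / 4 :=
    hy'.eventually (ball_mem_nhds y (by positivity))
  obtain ⟨I, hI⟩ := eventually_atTop.1 hclose
  -- the points
  obtain ⟨xs, hxs⟩ : ∃ xs : Fin (M + 1) → ℂ, ∀ l, xs l = p (φ1 (φ2 (I + (l : ℕ))) + 1) :=
    ⟨fun l => p (φ1 (φ2 (I + (l : ℕ))) + 1), fun _ => rfl⟩
  have hxinj : Function.Injective xs := by
    intro l l' hll
    rw [hxs, hxs] at hll
    have h1 : φ1 (φ2 (I + (l : ℕ))) = φ1 (φ2 (I + (l' : ℕ))) := hpinj hll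
    have h2 := hnmono.injective h1
    exact Fin.ext (by omega)
  obtain ⟨η0, hη0, hηδ, hsep⟩ := bin_sep hxinj hδ
  obtain ⟨A, hA, hbr⟩ := h.br η0 hη0 hηδ
  have hA0 : 0 < A := by linarith
  have hall : ∀ᶠ i in atTop, ∃ l, ∃ g, Br v0 p K (η0 / 2) A (φ1 (φ2 i)) (xs l) g := by
    filter_upwards [hclose] with i hi
    obtain ⟨S, hS, hSb⟩ := hbr _ (hφT (φ2 i))
    obtain ⟨l, hl⟩ := bin_pig hsep hS
    refine ⟨l, hSb (xs l) ?_ hl⟩
    rw [mem_ball]
    have h1 := hI (I + (l : ℕ)) (by omega)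
    rw [← hxs] at h1
    have h2 := dist_triangle_right (xs l) (p (φ1 (φ2 i) + 1)) y
    linarith
  obtain ⟨l, hfr⟩ : ∃ l, ∃ᶠ i in atTop, ∃ g, Br v0 p K (η0 / 2) A (φ1 (φ2 i)) (xs l) g := by
    by_contra hcon
    push Not at hcon
    have h1 : ∀ᶠ i in atTop, ∀ l, ¬ ∃ g, Br v0 p K (η0 / 2) A (φ1 (φ2 i)) (xs l) g := by
      rw [eventually_all]
      intro l
      have h2 := hcon l
      filter_upwards [h2] with i hi
      rintro ⟨g, hg⟩
      exact hi g hg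
    obtain ⟨i, ⟨l, hl⟩, h3⟩ := (hall.and h1).exists
    exact h3 l hl
  obtain ⟨x, hx⟩ : ∃ x, x = xs l := ⟨_, rfl⟩
  rw [← hx] at hfr
  obtain ⟨η, hη'⟩ : ∃ η, η = η0 / 2 := ⟨_, rfl⟩
  rw [← hη'] at hfr
  have hη : 0 < η := by rw [hη']; positivity
  have hRx : Rs p B x ≠ 0 := by rw [hx, hxs]; exact rs_neF hs _
  have hR1 : Rs p B (p 1) ≠ 0 := rs_neF hs 0
  have hR1n : 0 < ‖Rs p B (p 1)‖ := norm_pos_iff.2 hR1
  obtain ⟨ε0, hε0, hapx⟩ := apx hRx (qq_meas p B) (atm hs.sm x)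
  obtain ⟨s1, C1, hs1, hs1η, hC1, hbkg⟩ := bkg hη hA
  have hC10 : 0 < C1 := by linarith
  -- the radius
  have hev : ∀ᶠ s : ℝ in 𝓝[>] 0, s ∈ Ioo (0 : ℝ) (min s1 (ε0 / (8 * C1))) :=
    Ioo_mem_nhdsGT (by positivity)
  obtain ⟨s, hsa, hsI⟩ := (hapx.and hev).exists
  have hs0 : 0 < s := hsI.1
  have hss1 : s ≤ s1 := hsI.2.le.trans (min_le_left _ _)
  have hsε : s ≤ ε0 / (8 * C1) := hsI.2.le.trans (min_le_right _ _)
  obtain ⟨ε, hε⟩ : ∃ ε : ℝ, ε = ε0 * s ^ 2 * ‖Rs p B (p 1)‖ / (2 * A) := ⟨_, rfl⟩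
  have hε00 : 0 < ε := by rw [hε]; positivity
  -- n large
  have hsca := bsc hc (K := K) h.den hη hA hε00
  obtain ⟨i, ⟨g, hg⟩, hi1⟩ := (hfr.and_eventually (hni.eventually hsca)).exists
  obtain ⟨n, hn⟩ : ∃ n, n = φ1 (φ2 i) := ⟨_, rfl⟩
  rw [← hn] at hi1 hg
  have hi1 := hi1 x g hg
  obtain ⟨hβ0, -⟩ := br_small hc h.den hη hg
  have hβ : deriv g x ≠ 0 := norm_pos_iff.1 hβ0
  have hgd : DifferentiableOn ℂ g (ball x η) := hg.diff
  have hgi : InjOn g (ball x η) := br_injOn hg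
  have hosc0 := hbkg g x (p 1) hgd hgi hβ hg.near hg.far s hs0 hss1
  have hgx : 0 < ‖g x - p 1‖ := by
    by_contra hcon
    have h1 : ‖g x - p 1‖ = 0 := le_antisymm (not_lt.1 hcon) (norm_nonneg _)
    have h2 := hg.far
    rw [h1, mul_zero] at h2
    linarith
  obtain ⟨k, hk⟩ : ∃ k : ℂ → ℂ, ∀ z, k z = deriv g z ^ 2 / (deriv g x * (g z - p 1)) :=
    ⟨fun z => deriv g z ^ 2 / (deriv g x * (g z - p 1)), fun _ => rfl⟩
  have hkx' : k x = deriv g x / (g x - p 1) := by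
    rw [hk, sq, mul_div_mul_left _ _ hβ]
  have hsub : ball x s ⊆ ball x (η / 2) := ball_subset_ball (by linarith)
  have hsub2 : ball x s ⊆ ball x η := ball_subset_ball (by linarith)
  have hkx : 1 / A ≤ ‖k x‖ := by
    rw [hkx', norm_div, div_le_div_iff₀ hA0 hgx, one_mul, mul_comm]
    exact hg.near
  have hosc : ∀ z ∈ ball x s, ‖k z / k x - 1‖ ≤ C1 * s := by
    intro z hz
    rw [hkx', hk]
    exact hosc0 z hz
  have hest := bin_est (q := qq p B) (g := g) (x := x) (w := p 1) (β := deriv g x)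
    (R1 := Rs p B (p 1)) (k := k) hk hR1 hs0 hε00.le hA0 (by positivity) hkx hosc hsub hi1 hβ
  have hkxne : k x ≠ 0 := norm_pos_iff.1 (lt_of_lt_of_le (by positivity) hkx)
  obtain ⟨Q, hQ⟩ : ∃ Q : ℂ, Q = deriv g x * Rs p B (p 1) * k x := ⟨_, rfl⟩
  have hQ0 : Q ≠ 0 := by rw [hQ]; exact mul_ne_zero (mul_ne_zero hβ hR1) hkxne
  have hQn : (‖Q‖ : ℂ) ≠ 0 := by
    have : ‖Q‖ ≠ 0 := norm_ne_zero_iff.2 hQ0
    exact_mod_cast this
  rw [← hQ] at hest
  -- alignment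
  have hal := Pool.Agent.H79.GP.al_g hRat hs (U := ball x η) isOpen_ball hgd (n := n)
    (by
      intro z hz j hj
      have h1 := h.den _ (hg.stay z hz j hj.le)
      rw [ev_pol, kn_it_gg] at h1
      exact h1)
    (by
      intro z hz
      rw [← kn_it_gg]
      exact hg.inv z hz)
  have hlt := hsa (fun z => qq p B (g z) * deriv g z ^ 2 / Q) ((‖Q‖ : ℂ) / Q)
    (by
      rw [norm_div, Complex.norm_real, norm_norm]
      exact div_self (norm_ne_zero_iff.2 hQ0))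
    (by
      have hgm : AEMeasurable g (volume.restrict (ball x s)) :=
        (hgd.continuousOn.mono hsub2).aemeasurable measurableSet_ball
      exact (((qq_meas p B).comp_aemeasurable hgm).mul
        ((measurable_deriv g).aemeasurable.pow_const 2)).div_const Q)
    (by
      filter_upwards [hal] with z hz hzb
      obtain ⟨ρ, hρ0, hρ⟩ := hz (hsub2 hzb)
      refine ⟨ρ / ‖Q‖, by positivity, ?_⟩
      show qq p B (g z) * deriv g z ^ 2 / Q = _
      rw [hρ]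
      push_cast
      field_simp)
  refine absurd hlt (not_lt.2 (hest.trans ?_))
  apply ENNReal.ofReal_le_ofReal
  have h1 : ε * (A / ‖Rs p B (p 1)‖) = ε0 * s ^ 2 / 2 := by
    rw [hε]
    field_simp
  have h2 : C1 * s * (s ^ 2 * Real.pi) ≤ ε0 * s ^ 2 / 2 := by
    have h4 : C1 * s ≤ ε0 / 8 := by
      calc C1 * s ≤ C1 * (ε0 / (8 * C1)) := mul_le_mul_of_nonneg_left hsε hC10.le
        _ = ε0 / 8 := by field_simp
    have h3 : C1 * s * Real.pi ≤ ε0 / 2 := by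
      calc C1 * s * Real.pi ≤ ε0 / 8 * 4 :=
            mul_le_mul h4 Real.pi_le_four Real.pi_pos.le (by positivity)
        _ = ε0 / 2 := by ring
    calc C1 * s * (s ^ 2 * Real.pi) = C1 * s * Real.pi * s ^ 2 := by ring
      _ ≤ ε0 / 2 * s ^ 2 := mul_le_mul_of_nonneg_right h3 (by positivity)
      _ = ε0 * s ^ 2 / 2 := by ring
  rw [h1]
  linarith

end Pool.Agent.H79.GP
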