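import Pool.Agent.H79.GP.GLG
import Pool.Agent.H35.EX.SerP
import Pool.Agent.H35.EX.SerC
import Pool.Agent.H35.EX.SerI

/-!
# From the vanishing condition of the family to the quadratic differential (as SerB, SerP, RDef)
-/

set_option autoImplicit false

open MeasureTheory Metric Set Polynomial

namespace Pool.Agent.H79.GP

open Pool.Agent.H61.TT Pool.Agent.H35.EX Pool.Agent.H44.RR

variable {d m : ℕ} {a b : Polynomial ℂ} {p B : ℕ → ℂ}

theorem ser_zeroN (hs : SerN (2 * d - m) a b p B) : sbe a b p B 0 = 0 := by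
  unfold sbe
  rw [hs.crit, mul_zero]

theorem ser_succN (hs : SerN (2 * d - m) a b p B) (k : ℕ) : sbe a b p B (k + 1) = B k := hs.hB k

theorem B_neN (hs : SerN (2 * d - m) a b p B) (k : ℕ) : B k ≠ 0 := by
  induction k with
  | zero => rw [hs.B0]; exact one_ne_zero
  | succ k ih =>
    rw [← hs.hB k] at ih
    exact left_ne_zero_of_mul ih

theorem ser_dgN (hs : SerN (2 * d - m) a b p B) (k : ℕ) : dg a b (p (k + 1)) ≠ 0 := by
  have h := B_neN hs k
  rw [← hs.hB k] at h
  exact right_ne_zero_of_mul h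

theorem ser_sumN (hs : SerN (2 * d - m) a b p B) : Summable (fun k => ‖sbe a b p B k‖) := by
  rw [← summable_nat_add_iff 1]
  refine hs.sm.congr fun k => ?_
  rw [ser_succN hs]

theorem eta_sumN (hs : SerN (2 * d - m) a b p B) (η : Polynomial ℂ) :
    Summable (fun k => B k * (η.eval (p k) / b.eval (p k) ^ 2)) := by
  obtain ⟨R, hR⟩ := hs.pb
  obtain ⟨δ, hδ, hb⟩ := hs.bb
  obtain ⟨M, hM⟩ := (isCompact_closedBall (0 : ℂ) R).exists_bound_of_continuousOn
    (f := fun z => η.eval z) η.continuous.continuousOn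
  refine Summable.of_norm_bounded (g := fun k => ‖B k‖ * (M / δ ^ 2)) (hs.sm.mul_right _) ?_
  intro k
  rw [norm_mul, norm_div, norm_pow]
  refine mul_le_mul_of_nonneg_left ?_ (norm_nonneg _)
  have h1 : ‖η.eval (p k)‖ ≤ M := hM (p k) (by rw [mem_closedBall_zero_iff]; exact hR k)
  have h2 : δ ^ 2 ≤ ‖b.eval (p k)‖ ^ 2 := pow_le_pow_left₀ hδ.le (hb k) 2
  exact div_le_div₀ ((norm_nonneg _).trans h1) h1 (by positivity) h2

theorem b_neN (hs : SerN (2 * d - m) a b p B) (k : ℕ) : b.eval (p k) ≠ 0 := by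
  obtain ⟨δ, hδ, hb⟩ := hs.bb
  intro h
  have h1 := hb k
  rw [h, norm_zero] at h1
  linarith

theorem B_sum0N (h : RatD d a b) (hm : 1 ≤ m) (hmd : m ≤ d) (hbm : b.natDegree + m ≤ d) (hs : SerN (2 * d - m) a b p B) : ∑' k, B k = 0 := by
  have hbd : b.natDegree ≤ d := by
    rw [← h.deg]
    exact le_max_right _ _
  have h1 := hs.van (b ^ 2) (natDegree_pow_le.trans (by omega))
  rw [← h1]
  refine tsum_congr fun k => ?_
  rw [eval_pow, div_self (pow_ne_zero 2 (b_neN hs k)), mul_one]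

theorem ser_sum0N (h : RatD d a b) (hm : 1 ≤ m) (hmd : m ≤ d) (hbm : b.natDegree + m ≤ d) (hs : SerN (2 * d - m) a b p B) : ∑' k, sbe a b p B k = 0 := by
  rw [(ser_sumN hs).of_norm.tsum_eq_zero_add, ser_zeroN hs, zero_add]
  rw [tsum_congr fun k => ser_succN hs k]
  exact B_sum0N h hm hmd hbm hs

theorem sbe_p_sumN (hs : SerN (2 * d - m) a b p B) : Summable (fun k => sbe a b p B k * p k) := by
  obtain ⟨R, hR⟩ := hs.pb
  refine Summable.of_norm_bounded (g := fun k => ‖sbe a b p B k‖ * R) ((ser_sumN hs).mul_right _) ?_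
  intro k
  rw [norm_mul]
  exact mul_le_mul_of_nonneg_left (hR k) (norm_nonneg _)

theorem ser_sum1N (h : RatD d a b) (hm : 1 ≤ m) (hmd : m ≤ d) (hbm : b.natDegree + m ≤ d) (hs : SerN (2 * d - m) a b p B) : ∑' k, sbe a b p B k * p k = 0 := by
  have had : a.natDegree ≤ d := by
    rw [← h.deg]
    exact le_max_left _ _
  have hbd : b.natDegree ≤ d := by
    rw [← h.deg]
    exact le_max_right _ _
  rw [(sbe_p_sumN hs).tsum_eq_zero_add, ser_zeroN hs, zero_mul, zero_add]
  have h1 := hs.van (a * b) (natDegree_mul_le.trans (by omega))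
  rw [← h1]
  refine tsum_congr fun k => ?_
  rw [ser_succN hs, ← hs.orb k]
  unfold gg
  have hb := b_neN hs k
  rw [eval_mul]
  field_simp

theorem qs_pushN (h : RatD d a b) (hm : 1 ≤ m) (hmd : m ≤ d) (hbm : b.natDegree + m ≤ d) (hs : SerN (2 * d - m) a b p B) :
    ∀ᵐ x : ℂ, qs (sbe a b p B) p x = ∑ y ∈ fs a b x, qs (sbe a b p B) p y / dg a b y ^ 2 := by
  have hsum := ae_sum (p := p) (ser_sumN hs)
  have hN : volume {x : ℂ | ¬ Summable (fun k => sbe a b p B k / (x - p k))} = 0 := hsum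
  have hreg : ∀ᵐ x : ℂ, RegV d a b x := by
    rw [ae_iff]
    exact (reg_finite h).measure_zero _
  have hpk : ∀ᵐ x : ℂ, ∀ k, x ≠ p k := by
    rw [ae_all_iff]
    intro k
    exact Measure.ae_ne volume (p k)
  filter_upwards [hsum, hreg, hpk, ae_fib h hN] with x hx hxr hxp hxf
  obtain ⟨η, hηd, hη⟩ := lagn h hm hmd hbm hxr
  obtain ⟨δ, hδ, hbb⟩ := hs.bb
  have hb0 : ∀ k, b.eval (p k) ≠ 0 := by
    intro k hk
    have := hbb k
    rw [hk, norm_zero] at this
    linarith
  have hk : ∀ k, ∑ y ∈ fs a b x, (sbe a b p B k / (y - p k)) / dg a b y ^ 2 =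
      sbe a b p B (k + 1) / (x - p (k + 1)) + B k * (η.eval (p k) / b.eval (p k) ^ 2) := by
    intro k
    have h1 := hη (p k) (hb0 k) (by rw [hs.orb k]; exact (hxp (k + 1)).symm)
    rw [hs.orb k] at h1
    have h2 : ∑ y ∈ fs a b x, (sbe a b p B k / (y - p k)) / dg a b y ^ 2 =
        B k * ∑ y ∈ fs a b x, dg a b (p k) / ((y - p k) * dg a b y ^ 2) := by
      rw [Finset.mul_sum]
      apply Finset.sum_congr rfl
      intro y _
      unfold sbe
      rw [div_div, mul_div_assoc]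
    rw [h2, h1, ser_succN hs k]
    ring
  have hyS : ∀ y ∈ fs a b x, Summable (fun k => sbe a b p B k / (y - p k) / dg a b y ^ 2) := by
    intro y hy
    have := hxf y hy
    simp only [mem_setOf_eq, not_not] at this
    exact this.div_const _
  have hshift : Summable (fun k => sbe a b p B (k + 1) / (x - p (k + 1))) :=
    (summable_nat_add_iff 1).2 hx
  have hL : ∑' k, ∑ y ∈ fs a b x, (sbe a b p B k / (y - p k)) / dg a b y ^ 2 =
      ∑ y ∈ fs a b x, qs (sbe a b p B) p y / dg a b y ^ 2 := by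
    rw [Summable.tsum_finsetSum hyS]
    apply Finset.sum_congr rfl
    intro y _
    unfold qs
    rw [tsum_div_const]
  have hR : ∑' k, (sbe a b p B (k + 1) / (x - p (k + 1)) +
      B k * (η.eval (p k) / b.eval (p k) ^ 2)) = qs (sbe a b p B) p x := by
    rw [hshift.tsum_add (eta_sumN hs η), hs.van η hηd, add_zero]
    unfold qs
    rw [hx.tsum_eq_zero_add, ser_zeroN hs, zero_div, zero_add]
  rw [← hL, ← hR]
  exact (tsum_congr hk).symm


theorem qq_eqN (hs : SerN (2 * d - m) a b p B) (x : ℂ) : qs (sbe a b p B) p x = qq p B x := by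
  unfold qq qs
  have h1 : Function.Injective (fun k : ℕ => k + 1) := fun i j h => Nat.succ_injective h
  have h2 : Function.support (fun k => sbe a b p B k / (x - p k)) ⊆
      Set.range (fun k : ℕ => k + 1) := by
    intro k hk
    cases k with
    | zero =>
      exfalso
      apply hk
      change sbe a b p B 0 / (x - p 0) = 0
      rw [ser_zeroN hs, zero_div]
    | succ k => exact ⟨k, rfl⟩
  rw [← h1.tsum_eq h2]
  refine tsum_congr fun k => ?_
  rw [ser_succN hs]

theorem serF_of_serN (h : RatD d a b) (hm : 1 ≤ m) (hmd : m ≤ d) (hbm : b.natDegree + m ≤ d)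
    (hs : SerN (2 * d - m) a b p B) : SerF a b p B := by
  refine ⟨hs.orb, hs.hB, hs.crit, hs.B0, hs.sm, ?_, ?_⟩
  · obtain ⟨R, hR⟩ := hs.pb
    have hR0 : 0 ≤ R := (norm_nonneg _).trans (hR 0)
    have hfin := qs_fin hR0 hR (ser_sumN hs) (ser_sum0N h hm hmd hbm hs)
      (ser_sum1N h hm hmd hbm hs)
    simp_rw [qq_eqN hs] at hfin
    exact hfin
  · filter_upwards [qs_pushN h hm hmd hbm hs] with x hx
    simp_rw [qq_eqN hs] at hx
    exact hx

end Pool.Agent.H79.GP
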