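import Pool.Agent.H79.GP.GAL
import Pool.Agent.H79.GP.GRS
import Pool.Agent.H79.GP.GFP

/-!
# Module GFI: no vanishing combination along a finite orbit, in the family

PROOF. `hF : SerF a b p B` by `serF_of_serN`. `S` = the finite set of the points `p (k + 1)`, `r x = Rs p B x` (RDef). For `z ∉ S` `qq p B z = ∑ x ∈ S, r x / (z - x)` (group the absolutely convergent series by the value of `p (k + 1)`, `HasSum.tsum_fiberwise` or `Summable.tsum_sigma`; for `z ∉ S` `‖z - p (k + 1)‖` is bounded below).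
Let `D = ∏ x ∈ S, (X - C x)`, `N = ∑ x ∈ S, C (r x) * ∏ y ∈ S.erase x, (X - C y)`: `qq p B z = N.eval z / D.eval z` for `z ∉ S`. `N ≠ 0`: `N.eval (p 1) = r (p 1) * ∏ .. ≠ 0` (`rs_neF hF 0`). DECAY: `∑ x ∈ S, r x = ∑' k, B k = 0` and `∑ x ∈ S, r x * x = ∑' k, B k * p (k + 1) = 0` (`B_sum0N`, `ser_sum1N`, `ser_succN`, `ser_zeroN` in GFP),
so `z ^ 2 * (N.eval z / D.eval z) → 0` as `‖z‖ → ∞` (`1 / (z - x) = 1 / z + x / z ^ 2 + x ^ 2 / (z ^ 2 (z - x))`), so `N.natDegree + 3 ≤ D.natDegree` (`N ≠ 0`; `Polynomial.div_tendsto_..` or compare with the leading terms, `isEquivalent_atTop_lead` is for reals; for `ℂ` use `Polynomial.tendsto_..` along `cobounded ℂ` or elementary: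
`N.eval z / z ^ N.natDegree → N.leadingCoeff` along `cobounded ℂ`). Put `k0 = D.natDegree - N.natDegree ≥ 3`: `z ^ k0 * qq z → κ = N.leadingCoeff ≠ 0` along `cobounded ℂ`.
`a.natDegree = d`, `b.natDegree = d - m`: `gg a b z / z ^ m → α ≠ 0` along `cobounded ℂ` and `dg a b z / z ^ (m - 1) → m α` (`ww a b` has degree `2 d - m - 1` with leading coefficient `m * a.leadingCoeff * b.leadingCoeff`); `gg a b z → ∞`. So `‖qq z‖ / ‖dg a b z ^ 2 * qq (gg a b z)‖` behaves like `const * ‖z‖ ^ ((m - 1) (k0 - 2))` and tends to infinity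
(`m ≥ 2`, `k0 ≥ 3`). But for almost every `z` with `b.eval z ≠ 0`: `‖qq z‖ ≤ ‖dg a b z ^ 2 * qq (gg a b z)‖`: this is `al_fib` (GAL: `ρ ≤ 1`) at `x = gg a b z` with `y = z ∈ fs a b x` (`mem_fs`), the exceptional `x` being a null set `N0` with `volume (pre a b N0) = 0` (`pre_null` in H44/RR/AL2; compare `al_pt2` in GAL). The set `{z | R < ‖z‖}` has positive measure for every `R`: contradiction.
-/

set_option autoImplicit false

open MeasureTheory Metric Set Polynomial Filter Topology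

namespace Pool.Agent.H79.GP

open Pool.Agent.H61.TT Pool.Agent.H35.EX Pool.Agent.H44.RR

private theorem up_bd (P : Polynomial ℂ) {n : ℕ} (hn : P.natDegree ≤ n) :
    ∃ C : ℝ, 0 < C ∧ ∀ z : ℂ, 1 ≤ ‖z‖ → ‖P.eval z‖ ≤ C * ‖z‖ ^ n := by
  refine ⟨∑ i ∈ Finset.range (P.natDegree + 1), ‖P.coeff i‖ + 1, ?_, fun z hz => ?_⟩
  · have : 0 ≤ ∑ i ∈ Finset.range (P.natDegree + 1), ‖P.coeff i‖ :=
      Finset.sum_nonneg fun i _ => norm_nonneg _
    linarith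
  · rw [eval_eq_sum_range]
    refine (norm_sum_le _ _).trans ?_
    rw [add_mul, Finset.sum_mul]
    have h1 : 0 ≤ 1 * ‖z‖ ^ n := by positivity
    have h2 : ∑ i ∈ Finset.range (P.natDegree + 1), ‖P.coeff i * z ^ i‖ ≤
        ∑ i ∈ Finset.range (P.natDegree + 1), ‖P.coeff i‖ * ‖z‖ ^ n := by
      refine Finset.sum_le_sum fun i hi => ?_
      rw [norm_mul, norm_pow]
      refine mul_le_mul_of_nonneg_left (pow_le_pow_right₀ hz ?_) (norm_nonneg _)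
      have := Finset.mem_range.1 hi
      omega
    linarith

private theorem lo_bd (P : Polynomial ℂ) (hP : P ≠ 0) :
    ∃ c R : ℝ, 0 < c ∧ 1 ≤ R ∧ ∀ z : ℂ, R ≤ ‖z‖ → c * ‖z‖ ^ P.natDegree ≤ ‖P.eval z‖ := by
  have hl : 0 < ‖P.leadingCoeff‖ := norm_pos_iff.2 (leadingCoeff_ne_zero.2 hP)
  rcases Nat.eq_zero_or_pos P.natDegree with h0 | h0
  · refine ⟨‖P.leadingCoeff‖, 1, hl, le_rfl, fun z _ => ?_⟩
    rw [h0, pow_zero, mul_one]
    obtain ⟨c, rfl⟩ := natDegree_eq_zero.1 h0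
    rw [leadingCoeff_C, eval_C]
  · obtain ⟨C, hC, hb⟩ := up_bd P.eraseLead (n := P.natDegree - 1) (eraseLead_natDegree_le P)
    refine ⟨‖P.leadingCoeff‖ / 2, max 1 (2 * C / ‖P.leadingCoeff‖), by positivity, le_max_left _ _,
      fun z hz => ?_⟩
    have hz1 : 1 ≤ ‖z‖ := (le_max_left _ _).trans hz
    have hz2 : 2 * C / ‖P.leadingCoeff‖ ≤ ‖z‖ := (le_max_right _ _).trans hz
    rw [div_le_iff₀ hl] at hz2
    have h1 : P.eval z = P.eraseLead.eval z + P.leadingCoeff * z ^ P.natDegree := by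
      conv_lhs => rw [← eraseLead_add_C_mul_X_pow P]
      rw [eval_add, eval_mul, eval_C, eval_pow, eval_X]
    have h2 : ‖P.leadingCoeff * z ^ P.natDegree‖ - ‖P.eraseLead.eval z‖ ≤ ‖P.eval z‖ := by
      rw [h1, add_comm]
      have := norm_sub_norm_le (P.leadingCoeff * z ^ P.natDegree) (-(P.eraseLead.eval z))
      rwa [norm_neg, sub_neg_eq_add] at this
    have h3 := hb z hz1
    rw [norm_mul, norm_pow] at h2
    have h4 : ‖z‖ ^ P.natDegree = ‖z‖ * ‖z‖ ^ (P.natDegree - 1) := by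
      rw [← pow_succ']
      congr 1
      omega
    have h5 : 0 < ‖z‖ ^ (P.natDegree - 1) := by positivity
    rw [h4] at h2 ⊢
    nlinarith

private theorem qq_fin_sum {p B : ℕ → ℂ} (hB : Summable fun k => ‖B k‖) (S : Finset ℂ)
    (hS : ∀ k, p (k + 1) ∈ S) (z : ℂ) : qq p B z = ∑ x ∈ S, Rs p B x / (z - x) := by
  classical
  have hRs : ∀ x, Rs p B x = ∑' k, if p (k + 1) = x then B k else 0 := by
    intro x
    unfold Rs
    refine tsum_congr fun j => ?_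
    split_ifs <;> rfl
  have hsum : ∀ x, Summable fun k => if p (k + 1) = x then B k else 0 := by
    intro x
    refine Summable.of_norm_bounded (g := fun k => ‖B k‖) hB fun k => ?_
    split_ifs
    · exact le_rfl
    · rw [norm_zero]
      exact norm_nonneg _
  have h1 : ∀ k, B k / (z - p (k + 1)) =
      ∑ x ∈ S, (if p (k + 1) = x then B k else 0) / (z - x) := by
    intro k
    rw [Finset.sum_eq_single (p (k + 1))]
    · rw [if_pos rfl]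
    · intro x _ hx
      rw [if_neg (Ne.symm hx), zero_div]
    · intro h
      exact absurd (hS k) h
  unfold qq qs
  rw [tsum_congr h1, Summable.tsum_finsetSum fun x _ => (hsum x).div_const _]
  refine Finset.sum_congr rfl fun x _ => ?_
  rw [tsum_div_const, hRs]

/-- the two-sided estimate of the quadratic differential at infinity -/
private theorem qq_two {a b : Polynomial ℂ} {p B : ℕ → ℂ} (hF : SerF a b p B)
    (hf : (Set.range fun k => p (k + 1)).Finite) {C₀ R₀ : ℝ}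
    (hdec : ∀ x : ℂ, R₀ ≤ ‖x‖ → ‖qq p B x‖ ≤ C₀ / ‖x‖ ^ 3) :
    ∃ (k₀ : ℕ) (c C R : ℝ), 3 ≤ k₀ ∧ 0 < c ∧ 0 < C ∧ 1 ≤ R ∧ ∀ z : ℂ, R ≤ ‖z‖ →
      c ≤ ‖qq p B z‖ * ‖z‖ ^ k₀ ∧ ‖qq p B z‖ * ‖z‖ ^ k₀ ≤ C := by
  classical
  obtain ⟨S, hS⟩ : ∃ S : Finset ℂ, S = hf.toFinset := ⟨_, rfl⟩
  have hmem : ∀ k, p (k + 1) ∈ S := by
    intro k
    rw [hS, Set.Finite.mem_toFinset]
    exact ⟨k, rfl⟩
  obtain ⟨D, hD⟩ : ∃ D : Polynomial ℂ, D = ∏ x ∈ S, (X - C x) := ⟨_, rfl⟩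
  obtain ⟨N, hN⟩ : ∃ N : Polynomial ℂ,
      N = ∑ x ∈ S, C (Rs p B x) * ∏ y ∈ S.erase x, (X - C y) := ⟨_, rfl⟩
  have hD0 : D ≠ 0 := by
    rw [hD, Finset.prod_ne_zero_iff]
    exact fun x _ => X_sub_C_ne_zero x
  have hN0 : N ≠ 0 := by
    intro h0
    have h1 : N.eval (p 1) = Rs p B (p 1) * ∏ y ∈ S.erase (p 1), (p 1 - y) := by
      rw [hN, eval_finsetSum, Finset.sum_eq_single (p 1)]
      · rw [eval_mul, eval_C, eval_prod]
        simp only [eval_sub, eval_X, eval_C]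
      · intro x _ hx
        rw [eval_mul, eval_prod, Finset.prod_eq_zero (i := p 1)
          (Finset.mem_erase.2 ⟨Ne.symm hx, hmem 0⟩), mul_zero]
        rw [eval_sub, eval_X, eval_C, sub_self]
      · intro h
        exact absurd (hmem 0) h
    rw [h0, eval_zero] at h1
    refine mul_ne_zero (rs_neF hF 0) ?_ h1.symm
    rw [Finset.prod_ne_zero_iff]
    intro y hy
    exact sub_ne_zero.2 (Ne.symm (Finset.mem_erase.1 hy).1)
  have hq : ∀ z : ℂ, D.eval z ≠ 0 → qq p B z = N.eval z / D.eval z := by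
    intro z hz
    rw [qq_fin_sum hF.sm S hmem z, eq_div_iff hz, Finset.sum_mul, hN, eval_finsetSum]
    refine Finset.sum_congr rfl fun x hx => ?_
    have h1 : D.eval z = (z - x) * ∏ y ∈ S.erase x, (z - y) := by
      rw [hD, eval_prod, ← Finset.mul_prod_erase S _ hx]
      simp only [eval_sub, eval_X, eval_C]
    have h2 : z - x ≠ 0 := by
      intro h3
      rw [h1, h3, zero_mul] at hz
      exact hz rfl
    rw [eval_mul, eval_C, eval_prod, h1]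
    simp only [eval_sub, eval_X, eval_C]
    field_simp
  obtain ⟨c₁, R₁, hc₁, hR₁, h₁⟩ := lo_bd N hN0
  obtain ⟨c₂, R₂, hc₂, hR₂, h₂⟩ := lo_bd D hD0
  obtain ⟨C₁, hC₁, h₃⟩ := up_bd N le_rfl
  obtain ⟨C₂, hC₂, h₄⟩ := up_bd D le_rfl
  have hDz : ∀ z : ℂ, R₂ ≤ ‖z‖ → D.eval z ≠ 0 := by
    intro z hz h0
    have h5 := h₂ z hz
    have h6 : 0 < ‖z‖ := by linarith
    rw [h0, norm_zero] at h5
    have h7 : 0 < c₂ * ‖z‖ ^ D.natDegree := by positivity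
    linarith
  -- the degrees
  have hdeg : N.natDegree + 3 ≤ D.natDegree := by
    by_contra hlt
    push Not at hlt
    obtain ⟨R, hR⟩ : ∃ R : ℝ, R = max (max R₁ R₂) (max R₀ (|C₀| * C₂ / c₁ + 1)) := ⟨_, rfl⟩
    have hRR₁ : R₁ ≤ R := by rw [hR]; exact (le_max_left _ _).trans (le_max_left _ _)
    have hRR₂ : R₂ ≤ R := by rw [hR]; exact (le_max_right _ _).trans (le_max_left _ _)
    have hRR₀ : R₀ ≤ R := by rw [hR]; exact (le_max_left _ _).trans (le_max_right _ _)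
    have hRC : |C₀| * C₂ / c₁ + 1 ≤ R := by
      rw [hR]; exact (le_max_right _ _).trans (le_max_right _ _)
    have hR1 : 1 ≤ R := hR₁.trans hRR₁
    have hRn : ‖((R : ℝ) : ℂ)‖ = R := by
      rw [Complex.norm_real, Real.norm_of_nonneg (by linarith)]
    have h5 := hdec (R : ℂ) (by rw [hRn]; exact hRR₀)
    have h6 := h₁ (R : ℂ) (by rw [hRn]; exact hRR₁)
    have h7 := h₄ (R : ℂ) (by rw [hRn]; exact hR1)
    have hDR := hDz (R : ℂ) (by rw [hRn]; exact hRR₂)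
    rw [hq _ hDR, norm_div, hRn] at h5
    rw [hRn] at h6 h7
    have hDp : 0 < ‖D.eval (R : ℂ)‖ := norm_pos_iff.2 hDR
    have hR3 : 0 < R ^ 3 := by positivity
    rw [div_le_div_iff₀ hDp hR3] at h5
    have h8 : C₀ * ‖D.eval (R : ℂ)‖ ≤ |C₀| * (C₂ * R ^ D.natDegree) :=
      mul_le_mul (le_abs_self _) h7 hDp.le (abs_nonneg _)
    have h9 : c₁ * R ^ (N.natDegree + 3) ≤ |C₀| * C₂ * R ^ D.natDegree := by
      rw [pow_add, ← mul_assoc]
      have := mul_le_mul_of_nonneg_right h6 hR3.le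
      linarith
    obtain ⟨e, he⟩ : ∃ e, N.natDegree + 3 = D.natDegree + (e + 1) :=
      ⟨N.natDegree + 3 - D.natDegree - 1, by omega⟩
    rw [he, pow_add] at h9
    have h10 : 0 < R ^ D.natDegree := by positivity
    have h11 : c₁ * R ^ (e + 1) ≤ |C₀| * C₂ := by
      have h12 : R ^ D.natDegree * (c₁ * R ^ (e + 1)) ≤ R ^ D.natDegree * (|C₀| * C₂) := by
        linarith
      exact le_of_mul_le_mul_left h12 h10
    have h13 : R ≤ R ^ (e + 1) := by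
      rw [pow_succ']
      have : 1 ≤ R ^ e := one_le_pow₀ hR1
      nlinarith
    have h14 : |C₀| * C₂ / c₁ < R := by linarith
    rw [div_lt_iff₀ hc₁] at h14
    nlinarith
  obtain ⟨k₀, hk₀⟩ : ∃ k₀, D.natDegree = N.natDegree + k₀ := ⟨D.natDegree - N.natDegree, by omega⟩
  refine ⟨k₀, c₁ / C₂, C₁ / c₂, max R₁ R₂, by omega, by positivity, by positivity,
    hR₁.trans (le_max_left _ _), fun z hz => ?_⟩
  have hz1 : R₁ ≤ ‖z‖ := (le_max_left _ _).trans hz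
  have hz2 : R₂ ≤ ‖z‖ := (le_max_right _ _).trans hz
  have hz3 : 1 ≤ ‖z‖ := hR₁.trans hz1
  have hz0 : 0 < ‖z‖ := by linarith
  have hDR := hDz z hz2
  have hDp : 0 < ‖D.eval z‖ := norm_pos_iff.2 hDR
  have h5 := h₁ z hz1
  have h6 := h₂ z hz2
  have h7 := h₃ z hz3
  have h8 := h₄ z hz3
  rw [hq _ hDR, norm_div]
  rw [hk₀, pow_add] at h6 h8
  have h9 : 0 < ‖z‖ ^ N.natDegree := by positivity
  have h10 : 0 < ‖z‖ ^ k₀ := by positivity
  constructor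
  · rw [div_mul_eq_mul_div, div_le_div_iff₀ hC₂ hDp]
    calc c₁ * ‖D.eval z‖ ≤ c₁ * (C₂ * (‖z‖ ^ N.natDegree * ‖z‖ ^ k₀)) :=
          mul_le_mul_of_nonneg_left h8 hc₁.le
      _ = (c₁ * ‖z‖ ^ N.natDegree) * (‖z‖ ^ k₀ * C₂) := by ring
      _ ≤ ‖N.eval z‖ * (‖z‖ ^ k₀ * C₂) := mul_le_mul_of_nonneg_right h5 (by positivity)
      _ = ‖N.eval z‖ * ‖z‖ ^ k₀ * C₂ := by ring
  · rw [div_mul_eq_mul_div, div_le_div_iff₀ hDp hc₂]
    calc ‖N.eval z‖ * ‖z‖ ^ k₀ * c₂ ≤ C₁ * ‖z‖ ^ N.natDegree * ‖z‖ ^ k₀ * c₂ := by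
          refine mul_le_mul_of_nonneg_right (mul_le_mul_of_nonneg_right h7 h10.le) hc₂.le
      _ = C₁ * (c₂ * (‖z‖ ^ N.natDegree * ‖z‖ ^ k₀)) := by ring
      _ ≤ C₁ * ‖D.eval z‖ := mul_le_mul_of_nonneg_left h6 hC₁.le

theorem fin_falseN {d m : ℕ} {a b : Polynomial ℂ} {p B : ℕ → ℂ} (h : RatD d a b) (hm : 2 ≤ m)
    (hmd : m ≤ d) (ha : a.natDegree = d) (hb : b.natDegree = d - m)
    (hs : SerN (2 * d - m) a b p B) (hf : (Set.range fun k => p (k + 1)).Finite) : False := by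
  have hm1 : 1 ≤ m := by omega
  have hbm : b.natDegree + m ≤ d := by omega
  have hF := serF_of_serN h hm1 hmd hbm hs
  obtain ⟨R, hR⟩ := hs.pb
  have hR0 : 0 ≤ R := (norm_nonneg _).trans (hR 0)
  have hs1 : ∑' k, B k * p (k + 1) = 0 := by
    have h1 := ser_sum1N h hm1 hmd hbm hs
    rw [(sbe_p_sumN hs).tsum_eq_zero_add, ser_zeroN hs, zero_mul, zero_add] at h1
    rw [← h1]
    exact tsum_congr fun k => by rw [ser_succN hs]
  obtain ⟨C₀, hC₀, hdec⟩ := qs_decay (β := B) (p := fun k => p (k + 1)) hR0 (fun k => hR (k + 1))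
    hs.sm (B_sum0N h hm1 hmd hbm hs) hs1
  obtain ⟨k₀, c, C, R₁, hk₀, hc, hC, hR₁, htwo⟩ := qq_two hF hf (C₀ := C₀) (R₀ := 2 * R + 1) hdec
  -- the map at infinity
  have hb0 : b ≠ 0 := by
    rintro rfl
    have h1 := hs.bb
    obtain ⟨δ, hδ, h2⟩ := h1
    have h3 := h2 0
    rw [eval_zero, norm_zero] at h3
    linarith
  have ha0 : a ≠ 0 := by
    rintro rfl
    rw [natDegree_zero] at ha
    have := h.hd
    omega
  obtain ⟨c₁, R₂, hc₁, hR₂, hal⟩ := lo_bd a ha0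
  obtain ⟨c₂, R₃, hc₂, hR₃, hbl⟩ := lo_bd b hb0
  obtain ⟨C₂, hC₂, hbu⟩ := up_bd b le_rfl
  obtain ⟨C₃, hC₃, hwu⟩ := up_bd (ww a b) (natDegree_wwm h.hd hmd ha.le hbm)
  have hg : ∀ z : ℂ, max R₂ R₃ ≤ ‖z‖ → c₁ / C₂ * ‖z‖ ^ m ≤ ‖gg a b z‖ := by
    intro z hz
    have hz2 : R₂ ≤ ‖z‖ := (le_max_left _ _).trans hz
    have hz3 : R₃ ≤ ‖z‖ := (le_max_right _ _).trans hz
    have hz1 : 1 ≤ ‖z‖ := hR₂.trans hz2
    have h1 := hal z hz2
    have h2 := hbu z hz1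
    have h3 := hbl z hz3
    have hz0 : 0 < ‖z‖ := by linarith
    have h4 : 0 < ‖b.eval z‖ := by
      have : 0 < c₂ * ‖z‖ ^ b.natDegree := by positivity
      linarith
    unfold gg
    rw [norm_div, div_mul_eq_mul_div, div_le_div_iff₀ hC₂ h4]
    rw [ha] at h1
    rw [hb] at h2
    calc c₁ * ‖z‖ ^ m * ‖b.eval z‖ ≤ c₁ * ‖z‖ ^ m * (C₂ * ‖z‖ ^ (d - m)) :=
          mul_le_mul_of_nonneg_left h2 (by positivity)
      _ = (c₁ * ‖z‖ ^ (m + (d - m))) * C₂ := by rw [pow_add]; ring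
      _ = (c₁ * ‖z‖ ^ d) * C₂ := by rw [show m + (d - m) = d by omega]
      _ ≤ ‖a.eval z‖ * C₂ := mul_le_mul_of_nonneg_right h1 hC₂.le
  have hdg : ∀ z : ℂ, R₃ ≤ ‖z‖ → ‖dg a b z‖ ≤ C₃ / c₂ ^ 2 * ‖z‖ ^ (m - 1) := by
    intro z hz
    have hz1 : 1 ≤ ‖z‖ := hR₃.trans hz
    have hz0 : 0 < ‖z‖ := by linarith
    have h1 := hwu z hz1
    have h3 := hbl z hz
    rw [hb] at h3
    have h4 : 0 < c₂ * ‖z‖ ^ (d - m) := by positivity
    have h5 : 0 < ‖b.eval z‖ := by linarith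
    have h6 : (c₂ * ‖z‖ ^ (d - m)) ^ 2 ≤ ‖b.eval z‖ ^ 2 := pow_le_pow_left₀ h4.le h3 2
    unfold dg
    rw [norm_div, norm_pow, div_mul_eq_mul_div, div_le_div_iff₀ (by positivity) (by positivity)]
    calc ‖(ww a b).eval z‖ * c₂ ^ 2 ≤ C₃ * ‖z‖ ^ (2 * d - m - 1) * c₂ ^ 2 :=
          mul_le_mul_of_nonneg_right h1 (by positivity)
      _ = C₃ * ‖z‖ ^ (m - 1 + (d - m) * 2) * c₂ ^ 2 := by
          rw [show 2 * d - m - 1 = m - 1 + (d - m) * 2 by omega]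
      _ = C₃ * ‖z‖ ^ (m - 1) * (c₂ * ‖z‖ ^ (d - m)) ^ 2 := by
          rw [pow_add, pow_mul]
          ring
      _ ≤ C₃ * ‖z‖ ^ (m - 1) * ‖b.eval z‖ ^ 2 := mul_le_mul_of_nonneg_left h6 (by positivity)
  -- the inequality almost everywhere
  have hae : ∀ᵐ y : ℂ, b.eval y ≠ 0 →
      ‖qq p B y‖ ≤ ‖dg a b y‖ ^ 2 * ‖qq p B (gg a b y)‖ := by
    obtain ⟨N, hN⟩ : ∃ N : Set ℂ, N = {x | ¬ ∀ y ∈ fs a b x, ∃ ρ : ℝ, 0 ≤ ρ ∧ ρ ≤ 1 ∧
        qq p B y / dg a b y ^ 2 = (ρ : ℂ) * qq p B x} := ⟨_, rfl⟩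
    have hN0 : volume N = 0 := by
      rw [hN]
      exact al_fib h hF
    have h1 : ∀ᵐ y : ℂ, y ∉ pre a b N := by
      rw [ae_iff]
      simp only [not_not, Set.ofPred_mem_eq]
      exact pre_null h hN0
    filter_upwards [h1, ae_ww h] with y hy hw hb
    have h2 : ¬ (gg a b y ∈ N) := fun h3 => hy ⟨hb, h3⟩
    rw [hN] at h2
    have h4 : ∀ y' ∈ fs a b (gg a b y), ∃ ρ : ℝ, 0 ≤ ρ ∧ ρ ≤ 1 ∧
        qq p B y' / dg a b y' ^ 2 = (ρ : ℂ) * qq p B (gg a b y) := by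
      by_contra h5
      exact h2 h5
    obtain ⟨ρ, h5, h51, h6⟩ := h4 y ((mem_fs h _ _).2 ⟨hb, rfl⟩)
    have hdg : dg a b y ≠ 0 := (dg_ne hb).2 hw
    rw [div_eq_iff (pow_ne_zero 2 hdg)] at h6
    rw [h6, norm_mul, norm_mul, norm_pow, Complex.norm_real, Real.norm_of_nonneg h5]
    have h7 : 0 ≤ ‖dg a b y‖ ^ 2 * ‖qq p B (gg a b y)‖ := by positivity
    nlinarith
  -- a large point
  obtain ⟨K, hK⟩ : ∃ K : ℝ, K = (C₃ / c₂ ^ 2) ^ 2 * C / (c₁ / C₂) ^ k₀ := ⟨_, rfl⟩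
  obtain ⟨T, hT⟩ : ∃ T : ℝ, T = max (max R₁ (max R₂ R₃)) (max (R₁ / (c₁ / C₂)) (K / c)) := ⟨_, rfl⟩
  have hopen : IsOpen {z : ℂ | T < ‖z‖} := isOpen_lt continuous_const continuous_norm
  have hne : {z : ℂ | T < ‖z‖}.Nonempty := by
    obtain ⟨z, hz⟩ := NormedField.exists_lt_norm ℂ T
    exact ⟨z, hz⟩
  obtain ⟨z, hzT, hz⟩ := (Measure.dense_of_ae hae).inter_open_nonempty _ hopen hne
  have hzT' : T < ‖z‖ := hzT
  have hT1 : max R₁ (max R₂ R₃) ≤ T := by rw [hT]; exact le_max_left _ _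
  have hT2 : R₁ / (c₁ / C₂) ≤ T := by rw [hT]; exact (le_max_left _ _).trans (le_max_right _ _)
  have hT3 : K / c ≤ T := by rw [hT]; exact (le_max_right _ _).trans (le_max_right _ _)
  have hz1 : R₁ ≤ ‖z‖ := ((le_max_left _ _).trans hT1).trans hzT'.le
  have hz23 : max R₂ R₃ ≤ ‖z‖ := ((le_max_right _ _).trans hT1).trans hzT'.le
  have hz3 : R₃ ≤ ‖z‖ := (le_max_right _ _).trans hz23
  have hz01 : 1 ≤ ‖z‖ := hR₁.trans hz1
  have hz0 : 0 < ‖z‖ := by linarith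
  have hbz : b.eval z ≠ 0 := by
    intro h0
    have h3 := hbl z hz3
    rw [h0, norm_zero] at h3
    have h4 : 0 < c₂ * ‖z‖ ^ b.natDegree := by positivity
    linarith
  have hmain := hz hbz
  have hgz := hg z hz23
  have hdz := hdg z hz3
  obtain ⟨c', hc'⟩ : ∃ c', c' = c₁ / C₂ := ⟨_, rfl⟩
  have hc'0 : 0 < c' := by rw [hc']; positivity
  obtain ⟨C', hC'⟩ : ∃ C', C' = C₃ / c₂ ^ 2 := ⟨_, rfl⟩
  have hC'0 : 0 < C' := by rw [hC']; positivity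
  rw [← hc'] at hgz hT2 hK
  rw [← hC'] at hdz hK
  have hgR : R₁ ≤ ‖gg a b z‖ := by
    refine le_trans ?_ hgz
    have h1 : R₁ ≤ c' * ‖z‖ := by
      have h2 : R₁ / c' ≤ ‖z‖ := hT2.trans hzT'.le
      rw [div_le_iff₀ hc'0] at h2
      linarith
    have h2 : ‖z‖ ≤ ‖z‖ ^ m := le_self_pow₀ hz01 (by omega)
    exact h1.trans (mul_le_mul_of_nonneg_left h2 hc'0.le)
  have h1 := (htwo z hz1).1
  have h2 := (htwo (gg a b z) hgR).2
  obtain ⟨e, he⟩ : ∃ e, m * k₀ = 2 * (m - 1) + k₀ + (e + 1) := by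
    obtain ⟨m', rfl⟩ : ∃ m', m = m' + 2 := ⟨m - 2, by omega⟩
    obtain ⟨k', rfl⟩ : ∃ k', k₀ = k' + 3 := ⟨k₀ - 3, by omega⟩
    refine ⟨m' * k' + m' + k', ?_⟩
    rw [show m' + 2 - 1 = m' + 1 by omega]
    ring
  have hQ0 : 0 ≤ ‖qq p B (gg a b z)‖ := norm_nonneg _
  have h3 : (c' * ‖z‖ ^ m) ^ k₀ ≤ ‖gg a b z‖ ^ k₀ := pow_le_pow_left₀ (by positivity) hgz k₀
  have h4 : ‖qq p B (gg a b z)‖ * (c' * ‖z‖ ^ m) ^ k₀ ≤ C :=
    (mul_le_mul_of_nonneg_left h3 hQ0).trans h2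
  have h5 : ‖dg a b z‖ ^ 2 ≤ (C' * ‖z‖ ^ (m - 1)) ^ 2 := pow_le_pow_left₀ (norm_nonneg _) hdz 2
  have h6 : 0 < ‖z‖ ^ k₀ := by positivity
  have h7 : c * (c' * ‖z‖ ^ m) ^ k₀ ≤ C' ^ 2 * C * ‖z‖ ^ (2 * (m - 1) + k₀) := by
    have h8 : 0 < (c' * ‖z‖ ^ m) ^ k₀ := by positivity
    calc c * (c' * ‖z‖ ^ m) ^ k₀ ≤ (‖qq p B z‖ * ‖z‖ ^ k₀) * (c' * ‖z‖ ^ m) ^ k₀ :=
          mul_le_mul_of_nonneg_right h1 h8.le
      _ ≤ ((C' * ‖z‖ ^ (m - 1)) ^ 2 * ‖qq p B (gg a b z)‖ * ‖z‖ ^ k₀) *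
          (c' * ‖z‖ ^ m) ^ k₀ := by
          refine mul_le_mul_of_nonneg_right (mul_le_mul_of_nonneg_right ?_ h6.le) h8.le
          exact hmain.trans (mul_le_mul_of_nonneg_right h5 hQ0)
      _ = (C' * ‖z‖ ^ (m - 1)) ^ 2 * ‖z‖ ^ k₀ *
          (‖qq p B (gg a b z)‖ * (c' * ‖z‖ ^ m) ^ k₀) := by ring
      _ ≤ (C' * ‖z‖ ^ (m - 1)) ^ 2 * ‖z‖ ^ k₀ * C :=
          mul_le_mul_of_nonneg_left h4 (by positivity)
      _ = C' ^ 2 * C * ‖z‖ ^ (2 * (m - 1) + k₀) := by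
          rw [pow_add, mul_comm 2 (m - 1), pow_mul]
          ring
  rw [mul_pow, ← pow_mul, he, pow_add] at h7
  have h8 : 0 < ‖z‖ ^ (2 * (m - 1) + k₀) := by positivity
  have h9 : c * c' ^ k₀ * ‖z‖ ^ (e + 1) ≤ C' ^ 2 * C := by
    have h10 : ‖z‖ ^ (2 * (m - 1) + k₀) * (c * c' ^ k₀ * ‖z‖ ^ (e + 1)) ≤
        ‖z‖ ^ (2 * (m - 1) + k₀) * (C' ^ 2 * C) := by
      linarith
    exact le_of_mul_le_mul_left h10 h8
  have h10 : 0 < c' ^ k₀ := by positivity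
  have h11 : c * ‖z‖ ^ (e + 1) ≤ K := by
    rw [hK, le_div_iff₀ h10]
    linarith
  have h12 : ‖z‖ ≤ ‖z‖ ^ (e + 1) := le_self_pow₀ hz01 (by omega)
  have h13 : ‖z‖ ≤ K / c := by
    rw [le_div_iff₀ hc]
    have := mul_le_mul_of_nonneg_left h12 hc.le
    linarith
  linarith

end Pool.Agent.H79.GP
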