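import Pool.Agent.H79.GP.GIN
import Pool.Agent.H79.GP.GBI
import Pool.Agent.H79.GP.GFI
import Pool.Agent.H79.MZ.TFN
import Pool.Agent.H61.TT.Surj

/-!
# Module GTF: transversality in the family

PROOF. `xi_surjm`: as `xi_surj` (H61/TT/Surj) with `surj_half`: here `b = pol v0.2` has degree exactly `d - m`. Let `u a + v b = 1` (coprime). If `d - m = 0`, `b` is a nonzero constant `β`: `w = (cf d (C β⁻¹ * η), 0)`. Otherwise `r = (η u) % b` (`r.natDegree < d - m`), `A = η v + a * (η u / b)`, `B = -r`: `A b - a B = η`, `B.natDegree < d - m`, and `A b = η + a B` has degree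
`≤ 2 d - m`, so `A.natDegree ≤ d` (`natDegree_mul`, `b.natDegree = d - m`). `w = (cf d A, cf d B)`; `w.2 i = B.coeff i = 0` for `i ≥ d - m` (`coeff_eq_zero_of_natDegree_lt`; the definition of `cf` is in H32/BT or H79/Eul: `cf d P i = P.coeff i`). `xi` as in `xi_surj`.
`tf_ne_m`, `tf_ne_bm`: as `tf_ne` (H79/MZ/TFN) and `tf_ne_b` (H79/MZ/BTN). Suppose `TF v0 p B w = 0` for all `w ∈ Dm d m`. `SerN (2 * d - m) (pol v0.1) (pol v0.2) p B`: the fields from `h.cr` as in TFN, `van` by `xi_surjm`. If the orbit is infinite: `inf_falseF` (`bin_falseF`) with `serF_of_serN` (GFP); if it is finite: `fin_falseN`.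
-/

set_option autoImplicit false

open MeasureTheory Metric Set Polynomial Filter Topology

namespace Pool.Agent.H79.GP

open Pool.Agent.H44.Fatou Pool.Agent.H32.BT Pool.Agent.H79.Eul Pool.Agent.H79.Par Pool.Agent.H61.TT
open Pool.Agent.H35.EX Pool.Agent.H44.RR Pool.Agent.H79.MZ

private theorem surj_halfm {d m : ℕ} {a b : Polynomial ℂ} (hm : 2 ≤ m) (hmd : m ≤ d)
    (hcop : IsCoprime a b) (ha : a.natDegree ≤ d) (hb : b.natDegree = d - m) (hb0 : b ≠ 0)
    {η : Polynomial ℂ} (hη : η.natDegree ≤ 2 * d - m) :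
    ∃ A B : Polynomial ℂ, A.natDegree ≤ d ∧ (∀ i, d - m ≤ i → B.coeff i = 0) ∧
      A * b - a * B = η := by
  by_cases hz : d - m = 0
  · rw [hz] at hb
    obtain ⟨β, hβ⟩ := natDegree_eq_zero.1 hb
    have hβ0 : β ≠ 0 := by
      rintro rfl
      rw [C_0] at hβ
      exact hb0 hβ.symm
    refine ⟨C β⁻¹ * η, 0, ?_, fun i _ => coeff_zero i, ?_⟩
    · refine (natDegree_C_mul_le _ _).trans (hη.trans (by omega))
    · rw [← hβ, mul_zero, sub_zero, mul_right_comm, ← C_mul, inv_mul_cancel₀ hβ0, C_1, one_mul]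
  obtain ⟨u, v, huv⟩ := hcop
  have hdm : b * (η * u / b) + η * u % b = η * u := EuclideanDomain.div_add_mod _ _
  have hr : (η * u % b).natDegree < d - m := by
    have h1 := natDegree_mod_lt (η * u) (q := b) (by omega)
    omega
  have e : (η * v + a * (η * u / b)) * b - a * (-(η * u % b)) = η := by
    have e1 : (η * v + a * (η * u / b)) * b - a * (-(η * u % b)) =
        η * v * b + a * (b * (η * u / b) + η * u % b) := by ring
    rw [e1, hdm]
    linear_combination η * huv
  refine ⟨η * v + a * (η * u / b), -(η * u % b), ?_, ?_, e⟩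
  · set A := η * v + a * (η * u / b) with hA
    by_cases hA0 : A = 0
    · rw [hA0, natDegree_zero]
      omega
    · have e2 : A * b = η + a * (-(η * u % b)) := by linear_combination e
      have h1 : (A * b).natDegree = A.natDegree + b.natDegree := natDegree_mul hA0 hb0
      have h2 : (A * b).natDegree ≤ 2 * d - m := by
        rw [e2]
        refine (natDegree_add_le _ _).trans (max_le hη ?_)
        refine natDegree_mul_le.trans ?_
        rw [natDegree_neg]
        omega
      omega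
  · intro i hi
    rw [coeff_neg, coeff_eq_zero_of_natDegree_lt (lt_of_lt_of_le hr hi), neg_zero]

theorem xi_surjm {d m : ℕ} (hd : 2 ≤ d) {v0 : E d} (hF : Fam d m v0) {η : Polynomial ℂ}
    (hη : η.natDegree ≤ 2 * d - m) :
    ∃ w ∈ Dm d m, ∀ z : ℂ, xi v0 w z = η.eval z / (pol v0.2).eval z ^ 2 := by
  obtain ⟨A, B, hA, hB, e⟩ := surj_halfm hF.hm hF.hmd hF.cop hF.ha.le hF.hb
    (by
      intro h0
      have h1 := hF.cop
      rw [h0] at h1
      have h2 := natDegree_eq_zero_of_isUnit (isCoprime_zero_right.1 h1)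
      rw [hF.ha] at h2
      omega) hη
  have hBd : B.natDegree ≤ d := by
    by_contra h
    push Not at h
    have h1 : B.leadingCoeff = 0 := hB B.natDegree (by omega)
    rw [leadingCoeff_eq_zero] at h1
    rw [h1, natDegree_zero] at h
    omega
  refine ⟨(cf d A, cf d B), fun i hi => hB i hi, fun z => ?_⟩
  unfold xi
  rw [ev_cf hA, ev_cf hBd, ev_pol, ev_pol, ← e, eval_sub, eval_mul, eval_mul]

private theorem tf_serN {d m : ℕ} {v0 : E d} {p B : ℕ → ℂ} (hd : 2 ≤ d) (hc : Cr v0 p B)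
    (hF : Fam d m v0) (hcon : ∀ w ∈ Dm d m, TF v0 p B w = 0) :
    SerN (2 * d - m) (pol v0.1) (pol v0.2) p B := by
  refine ⟨hc.pb, ?_, ?_, ?_, ?_, hc.B0, hc.sm, ?_⟩
  · obtain ⟨δ, h1, h2⟩ := hc.bb
    exact ⟨δ, h1, fun k => by rw [← ev_pol]; exact h2 k⟩
  · intro k
    unfold gg
    rw [← ev_pol, ← ev_pol]
    exact hc.orb k
  · intro k
    rw [← dg_eq]
    exact hc.hB k
  · rw [← dg_eq, hc.crit, zero_div]
  · intro η hη
    obtain ⟨w, hw, hv⟩ := xi_surjm hd hF hη
    rw [← hcon w hw]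
    unfold TF
    exact tsum_congr fun k => by rw [hv]

theorem tf_ne_m {d m : ℕ} {v0 : E d} {p B : ℕ → ℂ} {K : Set ℂ} {δ : ℝ} (h : Good v0 p B K δ)
    (hF : Fam d m v0) : ∃ w ∈ Dm d m, TF v0 p B w ≠ 0 := by
  by_contra hcon
  push Not at hcon
  have hR : RatD d (pol v0.1) (pol v0.2) := ⟨h.hd, h.cop, h.deg⟩
  have hm := hF.hm
  have hmd := hF.hmd
  have hb := hF.hb
  have hser := tf_serN h.hd h.cr hF hcon
  rcases (Set.range fun k => p (k + 1)).finite_or_infinite with hf | hi
  · exact fin_falseN hR hm hmd hF.ha hb hser hf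
  · exact inf_falseF h (serF_of_serN hR (by omega) hmd (by omega) hser) hi

theorem tf_ne_bm {d m : ℕ} {v0 : E d} {p B : ℕ → ℂ} {K : Set ℂ} {δ : ℝ} {M : ℕ} {T : Set ℕ}
    (h : GoodB v0 p B K δ M T) (hF : Fam d m v0) : ∃ w ∈ Dm d m, TF v0 p B w ≠ 0 := by
  by_contra hcon
  push Not at hcon
  have hR : RatD d (pol v0.1) (pol v0.2) := ⟨h.hd, h.cop, h.deg⟩
  have hm := hF.hm
  have hmd := hF.hmd
  have hb := hF.hb
  have hser := tf_serN h.hd h.cr hF hcon
  rcases (Set.range fun k => p (k + 1)).finite_or_infinite with hf | hi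
  · exact fin_falseN hR hm hmd hF.ha hb hser hf
  · exact bin_falseF h (serF_of_serN hR (by omega) hmd (by omega) hser) hi

end Pool.Agent.H79.GP
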