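import Pool.Agent.H79.GP.GDF
import Pool.Agent.H79.MZ.CEB
import Pool.Agent.H79.MZ.RED
import Pool.Agent.H44.RG.GDf
import Pool.Agent.H44.RG.PLE

/-!
# Module GRD: summable critical values in the family: bounded orbits, the case of a positive upper exponent

PROOF. `fam_bdd`: `f = Rf v0`, `a = pol v0.1` of degree `d`, `b = pol v0.2` of degree `d - m`, `m ≥ 2`. In the coordinate `1 / z` the map is `u ↦ u ^ m * (holomorphic near 0)`, so there is `R ≥ 1` such that `U = {∞} ∪ {z | R < ‖z‖}` satisfies `f '' U ⊆ U` and `chord (f x) (f y) ≤ (1 / 2) * chord x y` for `x, y ∈ U`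
(for `z, w ∈ U` finite: `1 / f z = F (1 / z)` with `F u = (reverse b / reverse a) u * u ^ m`-like, holomorphic near `0`, `F 0 = 0`, `F' 0 = 0`, so `F` is Lipschitz with constant `1 / 8` near `0`, and for `‖z‖, ‖w‖ ≥ R ≥ 1` `chord z w = ‖1/z - 1/w‖ / (√(1 + ‖1/z‖²) √(1 + ‖1/w‖²))` is between `‖1/z - 1/w‖ / 2` and `‖1/z - 1/w‖`;
elementary estimate: `1 / f z = b z / a z`). `f` is Lipschitz for `chord`? Only a pointwise bound is needed: suppose `f^[N] x ∈ U` for some `N`. `f^[N]` is continuous and for `y` near `x` `chord (f^[N] x) (f^[N] y) ≤ L * chord x y` for some `L > 0`: rational maps are Lipschitz in the chordal metric (search `chord` Lipschitz in H44/RG, H44/RR, H79/Par, H91/CE: e.g. `rat_lip`; otherwise: the local derivative). For `n ≥ N` and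
`y` near `x`: `chord (f^[n] x) (f^[n] y) ≤ (1/2) ^ (n - N) * L * chord x y`, and `y ≠ x` exists near `x` (`𝓝[≠] x` is not trivial in `OnePoint ℂ`), so `a n ≤ (1/2)^(n - N) L`, `1 / a n ≥ 2 ^ (n - N) / L` is not summable: contradiction to `hS`. So the orbit of `x` is in the closed set `Uᶜ`, and `∞ ∈ U` open.
`fam_orb`: `c` finite; if `ev v0.2 c = 0` then `Rf v0 c = ∞`, excluded by `fam_bdd` for `x = Rf v0 c`; the orbit of `c` is `c` and the orbit of `x`, so it is finite (never `∞`) and `∞` is not in its closure. `regm`: `fib a b x = a - C x * b` has degree `d` (`m ≥ 1`).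
`red_ulm`: the proof of `hole_ul` (H79/MZ/HLC, up to `ceb`), with `fam_orb` in place of `Chart1`: `orb_all hfin`, `pl_bdd`, `pl_den`, `pl_sum`, `Cr v0 (fun k => it v0 k c) (fun k => 1 / trD v0 k (it v0 1 c))`, growth (`hlc_gr`, `hlc_pow` are private there: copy), `ceb`.
-/

set_option autoImplicit false

open Filter Topology Polynomial Metric Set MeasureTheory

namespace Pool.Agent.H79.GP

open Pool.Agent.H44.Fatou Pool.Agent.H32.BT Pool.Agent.H79.Eul Pool.Agent.H79.Par Pool.Agent.H61.TT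
open Pool.Agent.H35.EX Pool.Agent.H44.RR Pool.Agent.H79.MZ

/-- the norm of homogeneous coordinates -/
noncomputable def grdN (x y : ℂ) : ℝ := √(‖x‖ ^ 2 + ‖y‖ ^ 2)

theorem grdN_pos {x y : ℂ} (h : x ≠ 0 ∨ y ≠ 0) : 0 < grdN x y := by
  unfold grdN
  apply Real.sqrt_pos.2
  rcases h with h | h
  · have := norm_pos_iff.2 h
    positivity
  · have := norm_pos_iff.2 h
    positivity

theorem grdN_zero (x : ℂ) : grdN x 0 = ‖x‖ := by
  unfold grdN
  rw [norm_zero, zero_pow two_ne_zero, add_zero, Real.sqrt_sq (norm_nonneg x)]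

theorem grd_s {x y : ℂ} (hy : y ≠ 0) : √(1 + ‖x / y‖ ^ 2) = grdN x y / ‖y‖ := by
  have hy' : 0 < ‖y‖ := norm_pos_iff.2 hy
  unfold grdN
  rw [eq_div_iff hy'.ne']
  have h1 : √(1 + ‖x / y‖ ^ 2) * ‖y‖ = √(1 + ‖x / y‖ ^ 2) * √(‖y‖ ^ 2) := by
    rw [Real.sqrt_sq hy'.le]
  rw [h1, ← Real.sqrt_mul (by positivity), norm_div]
  congr 1
  field_simp
  ring

theorem grd_chord_pt {x y x' y' : ℂ} (h : x ≠ 0 ∨ y ≠ 0) (h' : x' ≠ 0 ∨ y' ≠ 0) :
    chord (pt x y) (pt x' y') = ‖x * y' - x' * y‖ / (grdN x y * grdN x' y') := by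
  have hN := grdN_pos h
  have hN' := grdN_pos h'
  by_cases hy : y = 0
  · have hx : x ≠ 0 := by
      rcases h with h | h
      · exact h
      · exact absurd hy h
    have hx0 : 0 < ‖x‖ := norm_pos_iff.2 hx
    have e1 : pt x y = OnePoint.infty := by unfold pt; rw [if_pos hy]
    by_cases hy' : y' = 0
    · have e2 : pt x' y' = OnePoint.infty := by unfold pt; rw [if_pos hy']
      rw [e1, e2, hy, hy', mul_zero, mul_zero, sub_zero, norm_zero, zero_div]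
      rfl
    · have e2 : pt x' y' = ((x' / y' : ℂ) : OnePoint ℂ) := by unfold pt; rw [if_neg hy']
      rw [e1, e2]
      change 1 / √(1 + ‖x' / y'‖ ^ 2) = _
      have hy0 : 0 < ‖y'‖ := norm_pos_iff.2 hy'
      rw [grd_s hy', hy, mul_zero, sub_zero, grdN_zero, norm_mul]
      field_simp
  · have hy0 : 0 < ‖y‖ := norm_pos_iff.2 hy
    have e1 : pt x y = ((x / y : ℂ) : OnePoint ℂ) := by unfold pt; rw [if_neg hy]
    by_cases hy' : y' = 0
    · have e2 : pt x' y' = OnePoint.infty := by unfold pt; rw [if_pos hy']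
      have hx : x' ≠ 0 := by
        rcases h' with h' | h'
        · exact h'
        · exact absurd hy' h'
      have hx0 : 0 < ‖x'‖ := norm_pos_iff.2 hx
      rw [e1, e2]
      change 1 / √(1 + ‖x / y‖ ^ 2) = _
      rw [grd_s hy, hy', mul_zero, zero_sub, norm_neg, grdN_zero, norm_mul]
      field_simp
    · have e2 : pt x' y' = ((x' / y' : ℂ) : OnePoint ℂ) := by unfold pt; rw [if_neg hy']
      have hy0' : 0 < ‖y'‖ := norm_pos_iff.2 hy'
      rw [e1, e2]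
      change ‖x / y - x' / y'‖ / (√(1 + ‖x / y‖ ^ 2) * √(1 + ‖x' / y'‖ ^ 2)) = _
      rw [grd_s hy, grd_s hy']
      have e3 : ‖x / y - x' / y'‖ = ‖x * y' - x' * y‖ / (‖y‖ * ‖y'‖) := by
        have e4 : x / y - x' / y' = (x * y' - x' * y) / (y * y') := by
          field_simp
        rw [e4, norm_div, norm_mul]
      rw [e3]
      field_simp

/-- the chordal distance in the chart at infinity -/
theorem grd_chord_inf (u v : ℂ) :
    chord (pt 1 u) (pt 1 v) = ‖u - v‖ / (√(1 + ‖u‖ ^ 2) * √(1 + ‖v‖ ^ 2)) := by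
  rw [grd_chord_pt (Or.inl one_ne_zero) (Or.inl one_ne_zero), one_mul, one_mul, norm_sub_rev]
  unfold grdN
  rw [norm_one, one_pow]

theorem grd_le (u v : ℂ) : chord (pt 1 u) (pt 1 v) ≤ ‖u - v‖ := by
  rw [grd_chord_inf]
  apply div_le_self (norm_nonneg _)
  refine one_le_mul_of_one_le_of_one_le ?_ ?_
  · rw [Real.one_le_sqrt]
    have := sq_nonneg ‖u‖
    linarith
  · rw [Real.one_le_sqrt]
    have := sq_nonneg ‖v‖
    linarith

theorem grd_ge {u v : ℂ} (hu : ‖u‖ ≤ 1) (hv : ‖v‖ ≤ 1) : ‖u - v‖ ≤ 2 * chord (pt 1 u) (pt 1 v) := by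
  rw [grd_chord_inf]
  have h1 : √(1 + ‖u‖ ^ 2) ≤ √2 := by
    apply Real.sqrt_le_sqrt
    have := norm_nonneg u
    nlinarith
  have h2 : √(1 + ‖v‖ ^ 2) ≤ √2 := by
    apply Real.sqrt_le_sqrt
    have := norm_nonneg v
    nlinarith
  have h3 : √(1 + ‖u‖ ^ 2) * √(1 + ‖v‖ ^ 2) ≤ 2 := by
    calc _ ≤ √2 * √2 := mul_le_mul h1 h2 (Real.sqrt_nonneg _) (Real.sqrt_nonneg _)
      _ = 2 := Real.mul_self_sqrt (by norm_num)
  have h4 : 0 < √(1 + ‖u‖ ^ 2) * √(1 + ‖v‖ ^ 2) := by positivity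
  rw [mul_div_assoc', le_div_iff₀ h4]
  have := norm_nonneg (u - v)
  nlinarith

theorem grd_rat (P Q : Polynomial ℂ) (u : ℂ) :
    rat P Q (pt 1 u) = pt ((reflect (Pool.Agent.H44.Fatou.dg P Q) P).eval u)
      ((reflect (Pool.Agent.H44.Fatou.dg P Q) Q).eval u) := by
  by_cases hu : u = 0
  · have e : pt 1 u = OnePoint.infty := by unfold pt; rw [if_pos hu]
    rw [e, rat_infty, hu, eval_reflect_zero, eval_reflect_zero]
  · have e : pt 1 u = ((1 / u : ℂ) : OnePoint ℂ) := by unfold pt; rw [if_neg hu]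
    rw [e, rat_coe_eq (one_div_ne_zero hu), one_div, inv_inv]

theorem grd_dg {d m : ℕ} {v0 : E d} (hF : Fam d m v0) :
    Pool.Agent.H44.Fatou.dg (pol v0.1) (pol v0.2) = d := by
  unfold Pool.Agent.H44.Fatou.dg
  rw [hF.ha, hF.hb]
  omega

/-- the map in the chart at infinity -/
theorem grd_loc {d m : ℕ} {v0 : E d} (hF : Fam d m v0) :
    ∃ (F : ℂ → ℂ) (ρ : ℝ), 0 < ρ ∧ ρ ≤ 1 ∧ (∀ u ∈ ball (0 : ℂ) ρ, Rf v0 (pt 1 u) = pt 1 (F u)) ∧
      F 0 = 0 ∧ ∀ u ∈ ball (0 : ℂ) ρ, ∀ v ∈ ball (0 : ℂ) ρ, ‖F u - F v‖ ≤ 1 / 4 * ‖u - v‖ := by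
  have hm := hF.hm
  have hmd := hF.hmd
  obtain ⟨A, hA⟩ : ∃ A, A = reflect d (pol v0.1) := ⟨_, rfl⟩
  obtain ⟨B, hB⟩ : ∃ B, B = reflect d (pol v0.2) := ⟨_, rfl⟩
  have hA0 : A.eval 0 ≠ 0 := by
    rw [hA, eval_reflect_zero]
    have h1 : (pol v0.1).coeff d = (pol v0.1).leadingCoeff := by
      rw [leadingCoeff, hF.ha]
    rw [h1]
    apply leadingCoeff_ne_zero.2
    intro h2
    have h3 := hF.ha
    rw [h2, natDegree_zero] at h3
    omega
  have hB0 : B.eval 0 = 0 := by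
    rw [hB, eval_reflect_zero]
    apply coeff_eq_zero_of_natDegree_lt
    rw [hF.hb]
    omega
  have hB1 : (derivative B).eval 0 = 0 := by
    rw [← coeff_zero_eq_eval_zero, coeff_derivative, hB, coeff_reflect, zero_add,
      revAt_le (by omega : 1 ≤ d), coeff_eq_zero_of_natDegree_lt (by rw [hF.hb]; omega), zero_mul]
  have hst : HasStrictDerivAt (fun u => B.eval u / A.eval u) 0 0 := by
    have h1 := (B.hasStrictDerivAt 0).fun_div (A.hasStrictDerivAt 0) hA0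
    rw [hB0, hB1, zero_mul, zero_mul, sub_zero, zero_div] at h1
    exact h1
  have hlo := (hasStrictFDerivAt_iff_isLittleO.1 hst.hasStrictFDerivAt).def (show (0 : ℝ) < 1 / 4 by norm_num)
  have hAe : ∀ᶠ u in 𝓝 (0 : ℂ), A.eval u ≠ 0 := A.continuous.continuousAt.eventually_ne hA0
  obtain ⟨r1, hr1, h1⟩ := Metric.eventually_nhds_iff.1 hlo
  obtain ⟨r2, hr2, h2⟩ := Metric.eventually_nhds_iff.1 hAe
  refine ⟨fun u => B.eval u / A.eval u, min (min r1 r2) 1, by positivity, min_le_right _ _, ?_, ?_, ?_⟩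
  · intro u hu
    rw [mem_ball] at hu
    have hAu : A.eval u ≠ 0 := h2 (hu.trans_le ((min_le_left _ _).trans (min_le_right _ _)))
    unfold Rf
    rw [grd_rat, grd_dg hF, ← hA, ← hB, ← pt_smul (x := 1) (y := B.eval u / A.eval u) hAu, one_mul,
      div_mul_cancel₀ _ hAu]
  · show B.eval 0 / A.eval 0 = 0
    rw [hB0, zero_div]
  · intro u hu v hv
    rw [mem_ball] at hu hv
    have h3 : dist (u, v) ((0 : ℂ), (0 : ℂ)) < r1 := by
      rw [Prod.dist_eq]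
      exact max_lt (hu.trans_le ((min_le_left _ _).trans (min_le_left _ _)))
        (hv.trans_le ((min_le_left _ _).trans (min_le_left _ _)))
    have h4 := h1 h3
    simpa using h4

theorem grd_iter {d : ℕ} {v0 : E d} {F : ℂ → ℂ} {ρ : ℝ}
    (h1 : ∀ u ∈ ball (0 : ℂ) ρ, Rf v0 (pt 1 u) = pt 1 (F u)) (h0 : F 0 = 0)
    (h2 : ∀ u ∈ ball (0 : ℂ) ρ, ∀ v ∈ ball (0 : ℂ) ρ, ‖F u - F v‖ ≤ 1 / 4 * ‖u - v‖) (n : ℕ) :
    (∀ u ∈ ball (0 : ℂ) ρ, F^[n] u ∈ ball (0 : ℂ) ρ ∧ (Rf v0)^[n] (pt 1 u) = pt 1 (F^[n] u)) ∧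
    ∀ u ∈ ball (0 : ℂ) ρ, ∀ v ∈ ball (0 : ℂ) ρ, ‖F^[n] u - F^[n] v‖ ≤ (1 / 4) ^ n * ‖u - v‖ := by
  induction n with
  | zero =>
    refine ⟨fun u hu => ⟨hu, rfl⟩, fun u _ v _ => ?_⟩
    rw [pow_zero, one_mul]
    exact le_rfl
  | succ n ih =>
    obtain ⟨ih1, ih2⟩ := ih
    refine ⟨fun u hu => ?_, fun u hu v hv => ?_⟩
    · obtain ⟨h3, h4⟩ := ih1 u hu
      rw [Function.iterate_succ_apply', Function.iterate_succ_apply', h4, h1 _ h3]
      refine ⟨?_, rfl⟩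
      have hρ : 0 < ρ := (norm_nonneg _).trans_lt (mem_ball_zero_iff.1 hu)
      have h5 := h2 _ h3 0 (mem_ball_self hρ)
      rw [h0, sub_zero, sub_zero] at h5
      rw [mem_ball_zero_iff] at h3 ⊢
      have := norm_nonneg (F^[n] u)
      linarith
    · rw [Function.iterate_succ_apply', Function.iterate_succ_apply']
      have h5 := h2 _ (ih1 u hu).1 _ (ih1 v hv).1
      have h6 := ih2 u hu v hv
      rw [pow_succ]
      linarith

theorem grd_nhds {ρ : ℝ} (hρ : 0 < ρ) : (fun u : ℂ => pt 1 u) '' ball (0 : ℂ) ρ ∈ 𝓝 (OnePoint.infty : OnePoint ℂ) := by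
  rw [OnePoint.nhds_infty_eq, mem_sup, mem_map, mem_pure]
  constructor
  · rw [coclosedCompact_eq_cocompact, ← Metric.cobounded_eq_cocompact, ← comap_norm_atTop, mem_comap]
    refine ⟨Ioi (1 / ρ), Ioi_mem_atTop _, ?_⟩
    intro z hz
    have hz1 : 1 / ρ < ‖z‖ := hz
    have hz0 : z ≠ 0 := by
      intro h
      rw [h, norm_zero] at hz1
      have : 0 < 1 / ρ := by positivity
      linarith
    refine ⟨z⁻¹, ?_, ?_⟩
    · rw [mem_ball_zero_iff, norm_inv]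
      have hz2 : 0 < ‖z‖ := norm_pos_iff.2 hz0
      rw [inv_lt_comm₀ hz2 hρ, ← one_div]
      exact hz1
    · show pt 1 z⁻¹ = _
      unfold pt
      rw [if_neg (inv_ne_zero hz0), one_div, inv_inv]
  · refine ⟨0, mem_ball_self hρ, ?_⟩
    show pt 1 0 = _
    unfold pt
    rw [if_pos rfl]

/-- rational maps are Lipschitz at a finite point -/
theorem grd_lip {P Q : Polynomial ℂ} (hcop : IsCoprime P Q) (z : ℂ) : ∃ L : ℝ, 0 < L ∧
    ∀ᶠ w : ℂ in 𝓝 z, chord (rat P Q (z : OnePoint ℂ)) (rat P Q (w : OnePoint ℂ)) ≤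
      L * chord (z : OnePoint ℂ) (w : OnePoint ℂ) := by
  obtain ⟨C1, hC1⟩ := (P.hasDerivAt z).differentiableAt.isBigO_sub.bound
  obtain ⟨C2, hC2⟩ := (Q.hasDerivAt z).differentiableAt.isBigO_sub.bound
  obtain ⟨a0, ha0⟩ : ∃ a0, a0 = P.eval z := ⟨_, rfl⟩
  obtain ⟨b0, hb0⟩ : ∃ b0, b0 = Q.eval z := ⟨_, rfl⟩
  have hab : a0 ≠ 0 ∨ b0 ≠ 0 := by
    rw [ha0, hb0]
    exact coprime_eval hcop z
  have hN := grdN_pos hab
  obtain ⟨K, hK⟩ : ∃ K : ℝ, K = ‖a0‖ * |C2| + ‖b0‖ * |C1| := ⟨_, rfl⟩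
  have hK0 : 0 ≤ K := by rw [hK]; positivity
  have hNc : Continuous fun w : ℂ => grdN (P.eval w) (Q.eval w) := by
    unfold grdN
    exact Real.continuous_sqrt.comp ((P.continuous.norm.pow 2).add (Q.continuous.norm.pow 2))
  have hNe : ∀ᶠ w in 𝓝 z, grdN a0 b0 / 2 < grdN (P.eval w) (Q.eval w) := by
    apply (hNc.tendsto z).eventually (lt_mem_nhds _)
    rw [← ha0, ← hb0]
    linarith
  have hSc : Continuous fun w : ℂ => √(1 + ‖w‖ ^ 2) := by fun_prop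
  have hS0 : 0 < √(1 + ‖z‖ ^ 2) := by positivity
  have hSe : ∀ᶠ w in 𝓝 z, √(1 + ‖w‖ ^ 2) < 2 * √(1 + ‖z‖ ^ 2) :=
    (hSc.tendsto z).eventually (gt_mem_nhds (by linarith))
  obtain ⟨S, hS⟩ : ∃ S : ℝ, S = √(1 + ‖z‖ ^ 2) := ⟨_, rfl⟩
  rw [← hS] at hS0 hSe
  obtain ⟨N0, hN0⟩ : ∃ N0 : ℝ, N0 = grdN a0 b0 := ⟨_, rfl⟩
  rw [← hN0] at hN hNe
  refine ⟨4 * K * S ^ 2 / N0 ^ 2 + 1, by positivity, ?_⟩
  filter_upwards [hC1, hC2, hNe, hSe] with w h1 h2 h3 h4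
  rw [rat_coe, rat_coe, ← ha0, ← hb0, grd_chord_pt hab (coprime_eval hcop w), ← hN0]
  have e1 : chord (z : OnePoint ℂ) (w : OnePoint ℂ) = ‖z - w‖ / (S * √(1 + ‖w‖ ^ 2)) := by
    rw [hS]
    rfl
  rw [e1]
  have hSw : 0 < √(1 + ‖w‖ ^ 2) := by positivity
  have hNw : 0 < grdN (P.eval w) (Q.eval w) := by linarith
  have hn := norm_nonneg (z - w)
  have e2 : ‖a0 * Q.eval w - P.eval w * b0‖ ≤ K * ‖z - w‖ := by
    have e3 : a0 * Q.eval w - P.eval w * b0 =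
        a0 * (Q.eval w - Q.eval z) - b0 * (P.eval w - P.eval z) := by
      rw [← ha0, ← hb0]
      ring
    rw [e3]
    refine (norm_sub_le _ _).trans ?_
    rw [norm_mul, norm_mul, hK]
    rw [norm_sub_rev w z] at h1 h2
    have h5 : ‖Q.eval w - Q.eval z‖ ≤ |C2| * ‖z - w‖ :=
      h2.trans (mul_le_mul_of_nonneg_right (le_abs_self _) hn)
    have h6 : ‖P.eval w - P.eval z‖ ≤ |C1| * ‖z - w‖ :=
      h1.trans (mul_le_mul_of_nonneg_right (le_abs_self _) hn)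
    have h7 := mul_le_mul_of_nonneg_left h5 (norm_nonneg a0)
    have h8 := mul_le_mul_of_nonneg_left h6 (norm_nonneg b0)
    linarith
  have e4 : ‖a0 * Q.eval w - P.eval w * b0‖ / (N0 * grdN (P.eval w) (Q.eval w)) ≤
      K * ‖z - w‖ / (N0 * (N0 / 2)) := by
    apply div_le_div₀ (by positivity) e2 (by positivity)
    exact mul_le_mul_of_nonneg_left h3.le hN.le
  refine e4.trans ?_
  have e5 : K * ‖z - w‖ / (N0 * (N0 / 2)) = 2 * K / N0 ^ 2 * ‖z - w‖ := by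
    field_simp
  have e6 : ‖z - w‖ ≤ 2 * S ^ 2 * (‖z - w‖ / (S * √(1 + ‖w‖ ^ 2))) := by
    rw [mul_div_assoc', le_div_iff₀ (by positivity)]
    have : S * √(1 + ‖w‖ ^ 2) ≤ 2 * S ^ 2 := by nlinarith
    nlinarith
  have e7 : 0 ≤ ‖z - w‖ / (S * √(1 + ‖w‖ ^ 2)) := by positivity
  rw [e5]
  calc 2 * K / N0 ^ 2 * ‖z - w‖ ≤ 2 * K / N0 ^ 2 * (2 * S ^ 2 * (‖z - w‖ / (S * √(1 + ‖w‖ ^ 2)))) :=
        mul_le_mul_of_nonneg_left e6 (by positivity)
    _ = 4 * K * S ^ 2 / N0 ^ 2 * (‖z - w‖ / (S * √(1 + ‖w‖ ^ 2))) := by ring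
    _ ≤ _ := by
        rw [add_mul, one_mul]
        linarith

theorem grd_lip1 {d m : ℕ} {v0 : E d} (hF : Fam d m v0) (x : OnePoint ℂ) : ∃ L : ℝ, 0 < L ∧
    ∀ᶠ y in 𝓝 x, chord (Rf v0 x) (Rf v0 y) ≤ L * chord x y := by
  induction x using OnePoint.rec with
  | infty =>
    obtain ⟨F, ρ, hρ, hρ1, h1, h0, h2⟩ := grd_loc hF
    refine ⟨1, one_pos, ?_⟩
    filter_upwards [grd_nhds hρ] with y hy
    obtain ⟨v, hv, rfl⟩ := hy
    beta_reduce
    have h00 : (0 : ℂ) ∈ ball (0 : ℂ) ρ := mem_ball_self hρ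
    have e : (OnePoint.infty : OnePoint ℂ) = pt 1 0 := by unfold pt; rw [if_pos rfl]
    rw [e, h1 0 h00, h1 v hv, one_mul]
    have h3 := h2 0 h00 v hv
    have h4 := grd_le (F 0) (F v)
    have h5 : ‖(0 : ℂ) - v‖ ≤ 2 * chord (pt 1 0) (pt 1 v) := by
      apply grd_ge
      · simp
      · exact (mem_ball_zero_iff.1 hv).le.trans hρ1
    have h6 := norm_nonneg ((0 : ℂ) - v)
    linarith
  | coe z =>
    obtain ⟨L, hL, h⟩ := grd_lip hF.cop z
    refine ⟨L, hL, ?_⟩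
    rw [OnePoint.nhds_coe_eq, eventually_map]
    exact h

theorem grd_lipN {d m : ℕ} {v0 : E d} (hF : Fam d m v0) (x : OnePoint ℂ) (N : ℕ) : ∃ L : ℝ, 0 < L ∧
    ∀ᶠ y in 𝓝 x, chord ((Rf v0)^[N] x) ((Rf v0)^[N] y) ≤ L * chord x y := by
  have hcont : Continuous (Rf v0) := rat_continuous hF.cop
  induction N with
  | zero =>
    refine ⟨1, one_pos, Eventually.of_forall fun y => ?_⟩
    rw [one_mul]
    exact le_rfl
  | succ N ih =>
    obtain ⟨L, hL, h⟩ := ih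
    obtain ⟨L', hL', h'⟩ := grd_lip1 hF ((Rf v0)^[N] x)
    refine ⟨L' * L, by positivity, ?_⟩
    filter_upwards [h, ((hcont.iterate N).tendsto x).eventually h'] with y hy1 hy2
    rw [Function.iterate_succ_apply', Function.iterate_succ_apply', mul_assoc]
    exact hy2.trans (mul_le_mul_of_nonneg_left hy1 hL'.le)

theorem fam_bdd {d m : ℕ} (hd : 2 ≤ d) {v0 : E d} (hF : Fam d m v0) {x : OnePoint ℂ}
    (hS : Pool.Agent.H44.RG.Summ (Rf v0) x) :
    OnePoint.infty ∉ closure (Set.range fun k : ℕ => (Rf v0)^[k] x) := by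
  intro hcl
  obtain ⟨F, ρ, hρ, hρ1, h1, h0, h2⟩ := grd_loc hF
  obtain ⟨a, ha, hsum, hexp⟩ := hS
  have hcont : Continuous (Rf v0) := rat_continuous hF.cop
  obtain ⟨W, hW⟩ : ∃ W : Set (OnePoint ℂ), W = interior ((fun u : ℂ => pt 1 u) '' ball (0 : ℂ) ρ) := ⟨_, rfl⟩
  have hWn : W ∈ 𝓝 (OnePoint.infty : OnePoint ℂ) := by
    rw [hW]
    exact interior_mem_nhds.2 (grd_nhds hρ)
  have hWo : IsOpen W := by rw [hW]; exact isOpen_interior
  have hWs : W ⊆ (fun u : ℂ => pt 1 u) '' ball (0 : ℂ) ρ := by rw [hW]; exact interior_subset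
  obtain ⟨_, hN1, N, rfl⟩ := mem_closure_iff_nhds.1 hcl W hWn
  beta_reduce at hN1
  obtain ⟨L, hL, hlip⟩ := grd_lipN hF x N
  have hWe : ∀ᶠ y in 𝓝 x, (Rf v0)^[N] y ∈ W :=
    ((hcont.iterate N).tendsto x).eventually (hWo.mem_nhds hN1)
  have key : ∀ n : ℕ, a (n + N) ≤ 2 * L * (1 / 4) ^ n := by
    intro n
    have hne : (𝓝[≠] x).NeBot := by
      induction x using OnePoint.rec with
      | infty => infer_instance
      | coe z => infer_instance
    have hev : ∀ᶠ y in 𝓝[≠] x, a (n + N) * chord x y ≤ chord ((Rf v0)^[n + N] x) ((Rf v0)^[n + N] y) ∧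
        (Rf v0)^[N] y ∈ W ∧ chord ((Rf v0)^[N] x) ((Rf v0)^[N] y) ≤ L * chord x y ∧ y ≠ x := by
      filter_upwards [nhdsWithin_le_nhds (hexp (n + N)), nhdsWithin_le_nhds hWe,
        nhdsWithin_le_nhds hlip, self_mem_nhdsWithin] with y h3 h4 h5 h6
      exact ⟨h3, h4, h5, h6⟩
    obtain ⟨y, h3, h4, h5, h6⟩ := hev.exists
    have hpos : 0 < chord x y := chord_pos h6.symm
    obtain ⟨u, hu, hu'⟩ := hWs hN1
    obtain ⟨v, hv, hv'⟩ := hWs h4
    beta_reduce at hu' hv'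
    obtain ⟨h7, h8⟩ := grd_iter h1 h0 h2 n
    rw [Function.iterate_add_apply, Function.iterate_add_apply, ← hu', ← hv', (h7 u hu).2, (h7 v hv).2]
      at h3
    rw [← hu', ← hv'] at h5
    have h9 := grd_le (F^[n] u) (F^[n] v)
    have h10 := h8 u hu v hv
    have h11 := grd_ge ((mem_ball_zero_iff.1 hu).le.trans hρ1) ((mem_ball_zero_iff.1 hv).le.trans hρ1)
    have h12 : (0 : ℝ) < (1 / 4) ^ n := by positivity
    have h13 : (1 / 4 : ℝ) ^ n * ‖u - v‖ ≤ (1 / 4) ^ n * (2 * (L * chord x y)) :=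
      mul_le_mul_of_nonneg_left (h11.trans (by linarith)) h12.le
    have h14 : a (n + N) * chord x y ≤ 2 * L * (1 / 4) ^ n * chord x y := by
      calc _ ≤ _ := h3
        _ ≤ (1 / 4 : ℝ) ^ n * (2 * (L * chord x y)) := h9.trans (h10.trans h13)
        _ = _ := by ring
    exact le_of_mul_le_mul_right h14 hpos
  have ht : Tendsto (fun n => 1 / a (n + N)) atTop (𝓝 0) :=
    (hsum.tendsto_atTop_zero).comp (tendsto_add_atTop_nat N)
  have hlow : ∀ n : ℕ, 1 / (2 * L) ≤ 1 / a (n + N) := by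
    intro n
    apply one_div_le_one_div_of_le (ha _)
    refine (key n).trans ?_
    have : (1 / 4 : ℝ) ^ n ≤ 1 := pow_le_one₀ (by norm_num) (by norm_num)
    nlinarith
  have h := ge_of_tendsto' ht hlow
  have : 0 < 1 / (2 * L) := by positivity
  linarith

theorem fam_orb {d m : ℕ} (hd : 2 ≤ d) {v0 : E d} (hF : Fam d m v0) {c : ℂ}
    (hS : Pool.Agent.H44.RG.Summ (Rf v0) (Rf v0 (c : OnePoint ℂ))) :
    (∀ j : ℕ, (Rf v0)^[j] (c : OnePoint ℂ) ≠ OnePoint.infty) ∧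
      OnePoint.infty ∉ closure (Set.range fun k : ℕ => (Rf v0)^[k] (c : OnePoint ℂ)) := by
  have h := fam_bdd hd hF hS
  have hX : OnePoint.infty ∉ closure (Set.range fun k : ℕ => (Rf v0)^[k] (c : OnePoint ℂ)) := by
    intro hcl
    have hsub : (Set.range fun k : ℕ => (Rf v0)^[k] (c : OnePoint ℂ)) ⊆
        {(c : OnePoint ℂ)} ∪ Set.range fun k : ℕ => (Rf v0)^[k] (Rf v0 (c : OnePoint ℂ)) := by
      rintro _ ⟨k, rfl⟩
      cases k with
      | zero => exact Or.inl rfl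
      | succ k => exact Or.inr ⟨k, rfl⟩
    have h1 := closure_mono hsub hcl
    rw [closure_union, closure_singleton] at h1
    rcases h1 with h1 | h1
    · exact OnePoint.infty_ne_coe _ h1
    · exact h h1
  refine ⟨fun j hj => hX (subset_closure ⟨j, hj⟩), hX⟩

theorem regm {d m : ℕ} {v0 : E d} (hF : Fam d m v0) (x : ℂ) :
    (fib (pol v0.1) (pol v0.2) x).natDegree = d := by
  have hm := hF.hm
  have hmd := hF.hmd
  unfold fib
  rw [natDegree_sub_eq_left_of_natDegree_lt, hF.ha]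
  rw [hF.ha]
  refine (natDegree_C_mul_le _ _).trans_lt ?_
  rw [hF.hb]
  omega

private theorem grd_pow {c q q' : ℝ} (hc : 0 < c) (hq' : 0 < q') (h : q' < q) :
    ∀ᶠ n : ℕ in atTop, q' ^ n ≤ c * q ^ n := by
  have hq0 : 0 < q := by linarith
  have h1 : Tendsto (fun n : ℕ => (q' / q) ^ n) atTop (𝓝 0) :=
    tendsto_pow_atTop_nhds_zero_of_lt_one (by positivity) ((div_lt_one hq0).2 h)
  filter_upwards [h1.eventually (gt_mem_nhds hc)] with n hn
  rw [div_pow, div_lt_iff₀ (pow_pos hq0 n)] at hn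
  exact hn.le

private theorem grd_gr {d : ℕ} {v0 : E d} {p1 : ℂ} (hden : ∀ j, ev v0.2 (it v0 j p1) ≠ 0)
    {a : ℝ} {n : ℕ} (hCE : ∀ᶠ y in 𝓝 (p1 : OnePoint ℂ),
      a * chord (p1 : OnePoint ℂ) y ≤
        chord ((Rf v0)^[n] (p1 : OnePoint ℂ)) ((Rf v0)^[n] y)) :
    a / (1 + ‖p1‖ ^ 2) ≤ ‖trD v0 n p1‖ := by
  have hder := tr_hasDerivAt v0 p1 n (fun i _ => hden i)
  have hs := (hasDerivAt_iff_tendsto_slope.1 hder).norm
  have hl : Tendsto (fun w : ℂ => a / (√(1 + ‖p1‖ ^ 2) * √(1 + ‖w‖ ^ 2))) (𝓝[≠] p1)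
      (𝓝 (a / (√(1 + ‖p1‖ ^ 2) * √(1 + ‖p1‖ ^ 2)))) := by
    have hc : Continuous (fun w : ℂ => a / (√(1 + ‖p1‖ ^ 2) * √(1 + ‖w‖ ^ 2))) := by
      refine Continuous.div continuous_const (by fun_prop) fun w => ?_
      positivity
    exact (hc.tendsto p1).mono_left nhdsWithin_le_nhds
  have h1 : ∀ᶠ w : ℂ in 𝓝 p1, a * chord (p1 : OnePoint ℂ) (w : OnePoint ℂ) ≤
      chord ((Rf v0)^[n] (p1 : OnePoint ℂ)) ((Rf v0)^[n] (w : OnePoint ℂ)) :=
    OnePoint.continuous_coe.continuousAt.eventually hCE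
  have h2 : ∀ᶠ w : ℂ in 𝓝 p1, ∀ i ∈ Finset.range n, ev v0.2 (it v0 i w) ≠ 0 := by
    rw [Filter.eventually_all_finset]
    intro i _
    have h3 : ContinuousAt (fun w => ev v0.2 (it v0 i w)) p1 := by
      have h4 : Continuous (fun z : ℂ => ev v0.2 z) := by
        unfold ev
        fun_prop
      exact h4.continuousAt.comp (tr_hasDerivAt v0 p1 i (fun j _ => hden j)).continuousAt
    exact h3.eventually_ne (hden i)
  have hev : ∀ᶠ w : ℂ in 𝓝[≠] p1, a / (√(1 + ‖p1‖ ^ 2) * √(1 + ‖w‖ ^ 2)) ≤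
      ‖slope (fun z => it v0 n z) p1 w‖ := by
    filter_upwards [nhdsWithin_le_nhds h1, nhdsWithin_le_nhds h2, self_mem_nhdsWithin] with w hw1 hw2
      hw3
    have hne : w - p1 ≠ 0 := sub_ne_zero.2 hw3
    have hnp : 0 < ‖w - p1‖ := norm_pos_iff.2 hne
    have e1 : (Rf v0)^[n] (p1 : OnePoint ℂ) = ((it v0 n p1 : ℂ) : OnePoint ℂ) :=
      rat_it fun i _ => hden i
    have e2 : (Rf v0)^[n] (w : OnePoint ℂ) = ((it v0 n w : ℂ) : OnePoint ℂ) :=
      rat_it fun i hi => hw2 i (Finset.mem_range.2 hi)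
    rw [e1, e2] at hw1
    have e3 : chord (p1 : OnePoint ℂ) (w : OnePoint ℂ) =
        ‖p1 - w‖ / (√(1 + ‖p1‖ ^ 2) * √(1 + ‖w‖ ^ 2)) := rfl
    have e4 : chord ((it v0 n p1 : ℂ) : OnePoint ℂ) ((it v0 n w : ℂ) : OnePoint ℂ) ≤
        ‖it v0 n p1 - it v0 n w‖ := by
      have e5 : chord ((it v0 n p1 : ℂ) : OnePoint ℂ) ((it v0 n w : ℂ) : OnePoint ℂ) =
        ‖it v0 n p1 - it v0 n w‖ / (√(1 + ‖it v0 n p1‖ ^ 2) * √(1 + ‖it v0 n w‖ ^ 2)) := rfl
      rw [e5]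
      refine div_le_self (norm_nonneg _) ?_
      refine one_le_mul_of_one_le_of_one_le ?_ ?_
      · rw [Real.one_le_sqrt]
        have := sq_nonneg ‖it v0 n p1‖
        linarith
      · rw [Real.one_le_sqrt]
        have := sq_nonneg ‖it v0 n w‖
        linarith
    rw [e3] at hw1
    have e6 := hw1.trans e4
    rw [slope_def_module, norm_smul, norm_inv, inv_mul_eq_div, le_div_iff₀ hnp]
    rw [norm_sub_rev p1 w, norm_sub_rev (it v0 n p1)] at e6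
    refine le_trans (le_of_eq ?_) e6
    ring
  have h3 := le_of_tendsto_of_tendsto hl hs hev
  rw [Real.mul_self_sqrt (by positivity)] at h3
  refine le_trans (le_of_eq ?_) h3
  ring

theorem red_ulm {d m : ℕ} (hd : 2 ≤ d) {v0 : E d} (hF : Fam d m v0) {c : ℂ} (hw : wv v0 c = 0)
    (hS : Pool.Agent.H44.RG.Summ (Rf v0) (Rf v0 (c : OnePoint ℂ))) {q : ℝ} (hq : 1 < q)
    (hU : ∃ᶠ n : ℕ in atTop, ∀ᶠ y in 𝓝 (Rf v0 (c : OnePoint ℂ)),
      q ^ n * chord (Rf v0 (c : OnePoint ℂ)) y ≤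
        chord ((Rf v0)^[n] (Rf v0 (c : OnePoint ℂ))) ((Rf v0)^[n] y)) :
    ∃ (B : ℕ → ℂ) (K : Set ℂ) (δ : ℝ) (M : ℕ) (T : Set ℕ),
      GoodB v0 (fun k => it v0 k c) B K δ M T := by
  have hdeg : max (pol v0.1).natDegree (pol v0.2).natDegree = d := grd_dg hF
  obtain ⟨hfin, hX⟩ := fam_orb hd hF hS
  obtain ⟨ho, hx⟩ := orb_all hfin
  obtain ⟨R, hR⟩ := Pool.Agent.H44.RG.pl_bdd hfin hX
  obtain ⟨ε1, β, hε1, hβ, hden⟩ := Pool.Agent.H44.RG.pl_den hF.cop hfin hX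
  obtain ⟨htr', hsm'⟩ := Pool.Agent.H44.RG.pl_sum hfin hS
  have hq0 : 0 < q := by linarith
  have hdne : ∀ k, ev v0.2 (it v0 k c) ≠ 0 := fun k => (ho (k + 1) k (Nat.lt_succ_self k)).1
  set p1 : ℂ := it v0 1 c with hp1
  have hRf : Rf v0 (c : OnePoint ℂ) = (p1 : OnePoint ℂ) := hx 1
  rw [hRf] at hU
  have hdn1 : ∀ j, ev v0.2 (it v0 j p1) ≠ 0 := fun j => by
    rw [hp1, ← it_comp]; exact hdne _
  have hgr : ∃ᶠ n : ℕ in atTop, ((1 + q) / 2) ^ n ≤ ‖trD v0 n p1‖ := by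
    refine (hU.and_eventually (grd_pow (c := 1 / (1 + ‖p1‖ ^ 2)) (q := q) (q' := (1 + q) / 2)
      (by positivity) (by linarith) (by linarith))).mono ?_
    rintro n ⟨hn, hn2⟩
    refine hn2.trans ?_
    have h1 := grd_gr hdn1 hn
    rwa [div_eq_inv_mul, ← one_div] at h1
  have htr : ∀ n, trD v0 n p1 ≠ 0 := htr'
  have hcR : Cr v0 (fun k => it v0 k c) (fun k => 1 / trD v0 k p1) := by
    refine ⟨⟨R, hR⟩, ⟨β, hβ, fun k => hden k _ (mem_ball_self hε1)⟩,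
      fun k => (ho (k + 1) k (Nat.lt_succ_self k)).2, fun k => red_B ho k (htr (k + 1)), hw, ?_, ?_⟩
    · show 1 / trD v0 0 p1 = 1
      have h1 : trD v0 0 p1 = 1 := by simp [trD]
      rw [h1, div_one]
    · refine hsm'.congr fun k => ?_
      rw [norm_div, norm_one, one_div]
  have hreg : ∀ k, (fib (pol v0.1) (pol v0.2) (it v0 (k + 1) c)).natDegree = d := fun k => regm hF _
  obtain ⟨K, δ, M, T, hG⟩ := ceb hd hF.cop hdeg hcR hreg (by linarith : 1 < (1 + q) / 2) hgr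
  exact ⟨_, K, δ, M, T, hG⟩

end Pool.Agent.H79.GP
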