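import Pool.Agent.H79.GP.GDF
import Pool.Agent.H61.TT.Lagr

/-!
# Partial fractions of the push forward, with the degree (as Lagr)
-/

set_option autoImplicit false

open Filter Topology Polynomial Metric Set MeasureTheory

namespace Pool.Agent.H79.GP

open Pool.Agent.H44.Fatou Pool.Agent.H32.BT Pool.Agent.H79.Eul Pool.Agent.H79.Par Pool.Agent.H61.TT

private theorem exists_quot {P : Polynomial ℂ} {y : ℂ} (hy : P.eval y = 0) :
    ∃ Q : Polynomial ℂ, P = (X - C y) * Q := dvd_iff_isRoot.2 hy

theorem natDegree_wwm {d m : ℕ} {a b : Polynomial ℂ} (hd : 2 ≤ d) (hmd : m ≤ d) (ha : a.natDegree ≤ d)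
    (hb : b.natDegree + m ≤ d) : (ww a b).natDegree ≤ 2 * d - m - 1 := by
  have ha' := natDegree_derivative_le a
  have hb' := natDegree_derivative_le b
  unfold ww
  by_cases hb0 : b.natDegree = 0
  · have h1 : derivative b = 0 := by
      rw [natDegree_eq_zero] at hb0
      obtain ⟨c, rfl⟩ := hb0
      simp
    rw [h1, mul_zero, sub_zero]
    refine natDegree_mul_le.trans ?_
    omega
  · refine (natDegree_sub_le _ _).trans (max_le ?_ ?_)
    · refine natDegree_mul_le.trans ?_
      omega
    · refine natDegree_mul_le.trans ?_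
      omega

theorem lagn {d m : ℕ} {a b : Polynomial ℂ} (h : RatD d a b) (hm : 1 ≤ m) (hmd : m ≤ d)
    (hbm : b.natDegree + m ≤ d) {x : ℂ} (hx : RegV d a b x) :
    ∃ η : Polynomial ℂ, η.natDegree ≤ 2 * d - m ∧ ∀ z : ℂ, b.eval z ≠ 0 → gg a b z ≠ x →
      ∑ y ∈ fs a b x, dg a b z / ((y - z) * dg a b y ^ 2) =
        1 / (x - gg a b z) + η.eval z / b.eval z ^ 2 := by
  classical
  set P := fib a b x with hP
  have hP0 : P ≠ 0 := fib_ne h x
  have hPd : P.natDegree = d := hx.deg
  have hd := h.hd
  have hS : ∀ y, y ∈ fs a b x ↔ P.eval y = 0 := by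
    intro y
    unfold fs
    rw [Multiset.mem_toFinset, mem_roots hP0]
    rfl
  have hb : b.natDegree ≤ d := by rw [← h.deg]; exact le_max_right _ _
  -- quotients
  have hQ : ∀ y : ℂ, ∃ Q : Polynomial ℂ, y ∈ fs a b x → P = (X - C y) * Q := by
    intro y
    by_cases hy : y ∈ fs a b x
    · obtain ⟨Q, hQ⟩ := exists_quot ((hS y).1 hy)
      exact ⟨Q, fun _ => hQ⟩
    · exact ⟨0, fun h => absurd h hy⟩
  choose Q hQ using hQ
  have hQd : ∀ y ∈ fs a b x, (Q y).natDegree ≤ d - 1 := by
    intro y hy
    have h1 := hQ y hy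
    have h2 : Q y ≠ 0 := by
      intro h0
      rw [h0, mul_zero] at h1
      exact hP0 h1
    have h3 : P.natDegree = 1 + (Q y).natDegree := by
      conv_lhs => rw [h1]
      rw [natDegree_mul (X_sub_C_ne_zero y) h2, natDegree_X_sub_C]
    omega
  have hQy : ∀ y ∈ fs a b x, (derivative P).eval y = (Q y).eval y := by
    intro y hy
    have h1 := congrArg (fun p => (derivative p).eval y) (hQ y hy)
    simp only [derivative_mul, derivative_sub, derivative_X, derivative_C, sub_zero, one_mul,
      eval_add, eval_mul, eval_sub, eval_X, eval_C, sub_self, zero_mul, add_zero] at h1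
    exact h1
  have hQy' : ∀ y ∈ fs a b x, ∀ y' ∈ fs a b x, y' ≠ y → (Q y).eval y' = 0 := by
    intro y hy y' hy' hne
    have h1 := congrArg (fun p => p.eval y') (hQ y hy)
    simp only [eval_mul, eval_sub, eval_X, eval_C] at h1
    rw [(hS y').1 hy'] at h1
    rcases mul_eq_zero.1 h1.symm with h2 | h2
    · exact absurd (sub_eq_zero.1 h2) hne
    · exact h2
  -- the Wronskian
  have hwP : ∀ y ∈ fs a b x, (ww a b).eval y = (derivative P).eval y * b.eval y := by
    intro y hy
    have h1 := (hS y).1 hy
    rw [hP] at h1 ⊢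
    unfold fib at h1 ⊢
    unfold ww
    simp only [eval_sub, eval_mul, eval_C, derivative_sub, derivative_mul, derivative_C, zero_mul,
      zero_add] at h1 ⊢
    linear_combination (-(derivative b).eval y) * h1
  have hb0 : ∀ y ∈ fs a b x, b.eval y ≠ 0 := hx.hb
  have hP'0 : ∀ y ∈ fs a b x, (derivative P).eval y ≠ 0 := by
    intro y hy h0
    apply hx.hw y hy
    rw [hwP y hy, h0, zero_mul]
  set N : Polynomial ℂ := b ^ 3 - ww a b *
    ∑ y ∈ fs a b x, C (b.eval y ^ 2 / (derivative P).eval y ^ 2) * Q y with hN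
  have hNd : N.natDegree ≤ 3 * d - m := by
    refine (natDegree_sub_le _ _).trans (max_le ?_ ?_)
    · refine natDegree_pow_le.trans ?_
      omega
    · refine natDegree_mul_le.trans ?_
      have h1 := natDegree_wwm h.hd hmd (by rw [← h.deg]; exact le_max_left _ _) hbm
      have h2 : (∑ y ∈ fs a b x, C (b.eval y ^ 2 / (derivative P).eval y ^ 2) * Q y).natDegree ≤ d - 1 := by
        refine natDegree_sum_le_of_forall_le _ _ (fun y hy => ?_)
        exact (natDegree_C_mul_le _ _).trans (hQd y hy)
      omega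
  have hNy : ∀ y ∈ fs a b x, N.eval y = 0 := by
    intro y hy
    rw [hN, eval_sub, eval_pow, eval_mul, eval_finset_sum, Finset.sum_eq_single y]
    · rw [eval_mul, eval_C, ← hQy y hy, hwP y hy]
      have := hP'0 y hy
      field_simp
      ring
    · intro y' hy' hne
      rw [eval_mul, hQy' y' hy' y hy (Ne.symm hne), mul_zero]
    · intro h0
      exact absurd hy h0
  -- divisibility
  have hmod : N % P = 0 := by
    refine eq_zero_of_degree_lt_of_eval_finset_eq_zero (fs a b x) ?_ ?_
    · rw [hx.card]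
      refine (degree_mod_lt N hP0).trans_le ?_
      rw [degree_eq_natDegree hP0, hPd]
    · intro y hy
      have h1 := congrArg (fun p => p.eval y) (EuclideanDomain.div_add_mod N P)
      simp only [eval_add, eval_mul] at h1
      rw [(hS y).1 hy, zero_mul, zero_add, hNy y hy] at h1
      exact h1
  obtain ⟨η, hη⟩ : P ∣ N := (EuclideanDomain.mod_eq_zero).1 hmod
  refine ⟨η, ?_, ?_⟩
  · by_cases hη0 : η = 0
    · rw [hη0]; simp
    · have h1 : N.natDegree = d + η.natDegree := by
        rw [hη, natDegree_mul hP0 hη0, hPd]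
      omega
  · intro z hz hzx
    have hPz : P.eval z = b.eval z * (gg a b z - x) := by
      rw [hP]
      unfold fib gg
      simp only [eval_sub, eval_mul, eval_C]
      field_simp
    have hgx : gg a b z - x ≠ 0 := sub_ne_zero.2 hzx
    have hPz0 : P.eval z ≠ 0 := by
      rw [hPz]
      exact mul_ne_zero hz hgx
    have h1 : N.eval z = P.eval z * η.eval z := by rw [hη, eval_mul]
    have h2 : N.eval z = b.eval z ^ 3 - (ww a b).eval z *
        ∑ y ∈ fs a b x, (b.eval y ^ 2 / (derivative P).eval y ^ 2) * (P.eval z / (z - y)) := by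
      rw [hN, eval_sub, eval_pow, eval_mul, eval_finset_sum]
      congr 2
      refine Finset.sum_congr rfl (fun y hy => ?_)
      rw [eval_mul, eval_C]
      congr 1
      have hzy : z - y ≠ 0 := by
        intro h0
        rw [sub_eq_zero.1 h0] at hPz0
        exact hPz0 ((hS y).1 hy)
      have h3 := congrArg (fun p => p.eval z) (hQ y hy)
      simp only [eval_mul, eval_sub, eval_X, eval_C] at h3
      rw [h3, mul_div_cancel_left₀ _ hzy]
    have h4 : ∑ y ∈ fs a b x, (b.eval y ^ 2 / (derivative P).eval y ^ 2) * (P.eval z / (z - y)) =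
        - P.eval z * ∑ y ∈ fs a b x, 1 / ((y - z) * dg a b y ^ 2) := by
      rw [Finset.mul_sum]
      refine Finset.sum_congr rfl (fun y hy => ?_)
      have hzy : z - y ≠ 0 := by
        intro h0
        rw [sub_eq_zero.1 h0] at hPz0
        exact hPz0 ((hS y).1 hy)
      have hyz : y - z ≠ 0 := by
        intro h0
        apply hzy
        rw [← neg_sub, h0, neg_zero]
      rw [dg_fib h hy, ← hP]
      have h5 := hP'0 y hy
      have h6 := hb0 y hy
      field_simp
      ring
    rw [h4] at h2
    have h7 : ∑ y ∈ fs a b x, dg a b z / ((y - z) * dg a b y ^ 2) =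
        dg a b z * ∑ y ∈ fs a b x, 1 / ((y - z) * dg a b y ^ 2) := by
      rw [Finset.mul_sum]
      refine Finset.sum_congr rfl (fun y _ => ?_)
      ring
    rw [h7]
    set S₁ := ∑ y ∈ fs a b x, 1 / ((y - z) * dg a b y ^ 2)
    have hxg : x - gg a b z ≠ 0 := by
      intro h0
      apply hgx
      rw [← neg_sub, h0, neg_zero]
    have h8 : P.eval z * η.eval z = b.eval z ^ 3 + (ww a b).eval z * P.eval z * S₁ := by
      rw [← h1, h2]
      ring
    have h9 : (ww a b).eval z = dg a b z * b.eval z ^ 2 := by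
      unfold Pool.Agent.H61.TT.dg
      field_simp
    rw [h9, hPz] at h8
    have h10 : b.eval z * ((gg a b z - x) * η.eval z - b.eval z ^ 2 - dg a b z * b.eval z ^ 2 *
        (gg a b z - x) * S₁) = 0 := by
      linear_combination h8
    rcases mul_eq_zero.1 h10 with h11 | h11
    · exact absurd h11 hz
    · rw [div_add_div _ _ hxg (pow_ne_zero 2 hz), eq_div_iff (mul_ne_zero hxg (pow_ne_zero 2 hz))]
      linear_combination h11

end Pool.Agent.H79.GP
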