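import Pool.Agent.H79.GP.GRD
import Pool.Agent.H44.RG.PLT
import Pool.Agent.H44.RG.PLX

/-!
# Module GRC: summable critical values in the family: the conical case

PROOF GIVEN BELOW (simpler than the plan in the next paragraph): the branches `H j` omit the critical point `c` and `∞` (a fixed point), so `h j = c + 1 / m j` is univalent and omits the value `c`: `koe_est` (H44/RG/PLC) with `e = c`.

PLAN. `fam_orb`, `regm` (GRD), `pl_bdd`, `pl_den` (radius `ε1` of the balls about the orbit on which `ev v0.2` is bounded below), `pl_sum`; `Cr` as in RED (H79/MZ/RED) with `B k = 1 / trD v0 k (it v0 1 c)`. Only the branches are different from PLX. Let `U` be a neighbourhood of `∞` with `f '' U ⊆ U` (see GRD, `fam_bdd`; the closure of the orbit is disjoint from a smaller `U`), `Uᶜ ⊆ closedBall 0 R1` in the plane.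
For a conical `n` (`hC`: `δ0`, frequently many `n` with `BijOn f^[n] W {y | chord (f^[n] x) y < δ0}`, `x = f c = p 1`, `f^[n] x = q = p (n + 1)`, bounded) `br_top` (H44/RG/PLT) with a radius `δ1 ≤ δ0` so small that `ball q δ1` (in the plane) is disjoint from `U` (uniform: the orbit has a positive distance from `U` if `U` is small; shrink `U`): `H j` on `ball q δ1`, continuous, injective, `f (H j z) = H (j + 1) z`, `H n z = z`, not critical.
`H j z ∉ U` (otherwise `z = f^[n - j] (H j z) ∈ U`), so `H j z = (h j z : OnePoint ℂ)` with `h j` continuous and `‖h j z‖ ≤ R1`. `h j` is holomorphic: `f^[n-j]` is holomorphic and locally injective at `h j z` (as in PLX/PLH: `loc_inj`, or by downward induction: `h j` is a continuous local right inverse of `z ↦ ev v0.1 z / ev v0.2 z` composed with `h (j + 1)`, the derivative `wv / ev ^ 2` at `h j z` is not zero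
because `H j z` is not critical: `HasDerivAt.of_local_left_inverse` or `HasStrictDerivAt.to_localInverse`; denominators: `f (H j z) ≠ ∞`). CAUCHY ESTIMATE: `‖h j z - h j q‖ ≤ 2 R1 * 2 ‖z - q‖ / δ1` for `‖z - q‖ ≤ δ1 / 2` (`Complex.norm_deriv_le_of_forall_mem_sphere_norm_le`, or the Schwarz lemma `Complex.dist_le_div_mul_dist_of_mapsTo_ball`): so with `δ = min (δ1 / 2) (δ1 ε1 / (8 R1))`
the points `h j z`, `z ∈ ball q δ`, are in `ball (p (j + 1)) ε1`. `K = closure (⋃ k, ball (p k) ε1)` as in RED; `g = h 0`, `it v0 j (g z) = h j z`.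
-/

set_option autoImplicit false

open Filter Topology Polynomial Metric Set MeasureTheory

namespace Pool.Agent.H79.GP

open Pool.Agent.H44.Fatou Pool.Agent.H32.BT Pool.Agent.H79.Eul Pool.Agent.H79.Par Pool.Agent.H61.TT
open Pool.Agent.H35.EX Pool.Agent.H44.RR Pool.Agent.H79.MZ

theorem grc_inf {d m : ℕ} {v0 : E d} (hF : Fam d m v0) : Rf v0 OnePoint.infty = OnePoint.infty := by
  obtain ⟨F, ρ, hρ, hρ1, h1, h0, h2⟩ := grd_loc hF
  have e : (OnePoint.infty : OnePoint ℂ) = pt 1 0 := by unfold pt; rw [if_pos rfl]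
  rw [e, h1 0 (mem_ball_self hρ), h0]

theorem pl_exm {d m : ℕ} (hd : 2 ≤ d) {v0 : E d} (hF : Fam d m v0) {c : ℂ} (hc : wv v0 c = 0)
    (hS : Pool.Agent.H44.RG.Summ (Rf v0) (Rf v0 (c : OnePoint ℂ)))
    (hC : Pool.Agent.H44.RG.Con (Rf v0) (Rf v0 (c : OnePoint ℂ))) :
    ∃ (ε0 δ : ℝ) (S : Set ℕ), Pool.Agent.H44.RG.Pl v0 (fun k => it v0 k c) ε0 δ S := by
  have hdeg : max (pol v0.1).natDegree (pol v0.2).natDegree = d := grd_dg hF
  have hd1 : 1 ≤ max (pol v0.1).natDegree (pol v0.2).natDegree := by rw [hdeg]; omega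
  have hcr : IsCrit (Rf v0) (c : OnePoint ℂ) := by
    apply crit_of_wr hF.cop hd1
    rw [← wv_cf (pol_deg _) (pol_deg _), cf_pol, cf_pol]
    exact hc
  obtain ⟨hfin, hinf⟩ := fam_orb hd hF hS
  obtain ⟨ho, hx⟩ := orb_all hfin
  obtain ⟨φ, hφ1, hφs, hφi, -⟩ := exists_mob c
  obtain ⟨R, hR⟩ := Pool.Agent.H44.RG.pl_bdd hfin hinf
  obtain ⟨ε0, β, hε0, hβ, hden⟩ := Pool.Agent.H44.RG.pl_den hF.cop hfin hinf
  obtain ⟨htr, hsm⟩ := Pool.Agent.H44.RG.pl_sum hfin hS
  have hKK := Pool.Agent.H80.AJ.KK_pos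
  obtain ⟨M, hM⟩ : ∃ M : ℝ, M = |R| + ‖c‖ + 1 := ⟨_, rfl⟩
  have hM0 : 0 < M := by
    rw [hM]
    positivity
  obtain ⟨κ, hκe⟩ : ∃ κ : ℝ, κ = min (1 / 2) (ε0 / (32 * Pool.Agent.H80.AJ.KK * M)) := ⟨_, rfl⟩
  have hκ : 0 < κ := by
    rw [hκe]
    exact lt_min (by norm_num) (by positivity)
  have hκ1 : κ ≤ 1 / 2 := by rw [hκe]; exact min_le_left _ _
  have hκ2 : 16 * Pool.Agent.H80.AJ.KK * κ * M < ε0 := by
    have h1 : κ ≤ ε0 / (32 * Pool.Agent.H80.AJ.KK * M) := by rw [hκe]; exact min_le_right _ _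
    rw [le_div_iff₀ (by positivity)] at h1
    linarith
  obtain ⟨δ', hδ', hfr⟩ := hC
  refine ⟨ε0, min (κ * δ') ε0, {n : ℕ | ∃ U : Set (OnePoint ℂ), IsOpen U ∧
    Rf v0 (c : OnePoint ℂ) ∈ U ∧ BijOn (Rf v0)^[n] U
      {y | chord ((Rf v0)^[n] (Rf v0 (c : OnePoint ℂ))) y < δ'}},
    hF.cop, hdeg, ho, hc, ⟨R, hR⟩,
    ⟨β, hβ, fun k z hz => hden k z hz⟩, htr, hsm, fun k => regm hF _, hε0,
    lt_min (mul_pos hκ hδ') hε0, Nat.frequently_atTop_iff_infinite.1 hfr, ?_⟩
  rintro n ⟨U, hU, hxU, hB⟩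
  have hqn : (Rf v0)^[n] (Rf v0 (c : OnePoint ℂ)) = ((it v0 (n + 1) c : ℂ) : OnePoint ℂ) := by
    rw [← Function.iterate_succ_apply, hx (n + 1)]
  rw [hqn] at hB
  obtain ⟨H, hHn, hHj, hHr⟩ := Pool.Agent.H44.RG.br_top hF.cop hd1 hU hxU hqn hδ' hB
  obtain ⟨q, hq⟩ : ∃ q : ℂ, q = it v0 (n + 1) c := ⟨_, rfl⟩
  rw [← hq] at hHn hHj hHr
  have hcont : Continuous (Rf v0) := rat_continuous hF.cop
  have hqb : q ∈ ball q δ' := mem_ball_self hδ'
  have hHq : ∀ j ≤ n, H j q = ((it v0 (j + 1) c : ℂ) : OnePoint ℂ) := by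
    intro j hj
    rw [(hHj j hj).2.2, ← hx (j + 1), Function.iterate_succ_apply]
    rfl
  have hitf : ∀ j, j ≤ n → ∀ z ∈ ball q δ', (Rf v0)^[n - j] (H j z) = (z : OnePoint ℂ) := by
    intro j hj z hz
    have h5 := Pool.Agent.H44.RG.it_H (f := Rf v0) (H := fun i => H i z) (n := n)
      (fun i hi => (hHr i hi z hz).1) (n - j) j (by omega)
    rw [← hHn z hz]
    exact h5
  have hHi : ∀ j, j ≤ n → ∀ z ∈ ball q δ', H j z ≠ OnePoint.infty := by
    intro j hj z hz h
    have h1 := hitf j hj z hz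
    rw [h, Function.iterate_fixed (grc_inf hF)] at h1
    exact OnePoint.infty_ne_coe _ h1
  -- the holomorphic branches in the chart at `c`
  have hm : ∀ j : ℕ, ∃ m : ℂ → ℂ, j < n → DifferentiableOn ℂ m (ball q δ') ∧
      InjOn m (ball q δ') ∧ ∀ z ∈ ball q δ', φ (H j z) = (m z : OnePoint ℂ) := by
    intro j
    by_cases hj : j < n
    · obtain ⟨m, h1, h2, h3⟩ := Pool.Agent.H44.RG.br_hol hF.cop hd1 hφs hφ1 hφi (k := n - j)
        (hHj j hj.le).1 (hHj j hj.le).2.1 (by
          intro z hz h4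
          apply (hHr j hj z hz).2
          rw [h4]
          exact hcr) (fun z hz => hitf j hj.le z hz) (by
          intro z hz
          exact Pool.Agent.H44.RG.loc_inj (f := rat (pol v0.1) (pol v0.2)) hcont
            (H := fun i => H i z) (n := n)
            (fun i hi => hHr i hi z hz) (n - j) j (by omega))
      exact ⟨m, fun _ => ⟨h1, h2, h3⟩⟩
    · exact ⟨fun z => z, fun h => absurd h hj⟩
  choose m hm using hm
  have hm0 : ∀ j < n, ∀ z ∈ ball q δ', m j z ≠ 0 := by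
    intro j hj z hz h4
    apply hHi j hj.le z hz
    apply φ.injective
    rw [(hm j hj).2.2 z hz, h4, hφi]
  have hcoe : ∀ j < n, ∀ z ∈ ball q δ', H j z = ((c + (m j z)⁻¹ : ℂ) : OnePoint ℂ) := by
    intro j hj z hz
    apply φ.injective
    rw [(hm j hj).2.2 z hz, hφ1]
    · congr 1
      rw [add_sub_cancel_left, inv_inv]
    · intro h6
      apply inv_ne_zero (hm0 j hj z hz)
      calc (m j z)⁻¹ = c + (m j z)⁻¹ - c := by ring
        _ = 0 := by rw [h6, sub_self]
  have hmq : ∀ j < n, c + (m j q)⁻¹ = it v0 (j + 1) c := by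
    intro j hj
    have h5 := hcoe j hj q hqb
    rw [hHq j hj.le] at h5
    exact (OnePoint.coe_eq_coe.1 h5).symm
  have hdif : ∀ j < n, DifferentiableOn ℂ (fun z => c + (m j z)⁻¹) (ball q δ') := by
    intro j hj z hz
    exact ((hm j hj).1 z hz |>.inv (hm0 j hj z hz)).const_add c
  have hest : ∀ j < n, ∀ z ∈ ball q (κ * δ'), ‖(c + (m j z)⁻¹) - it v0 (j + 1) c‖ < ε0 := by
    intro j hj z hz
    have h5 := Pool.Agent.H44.RG.koe_est (m := fun z => c + (m j z)⁻¹) (q := q) (e := c) hδ' (hdif j hj)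
      (by
        intro z1 hz1 z2 hz2 h12
        exact (hm j hj).2.1 hz1 hz2 (inv_injective (add_left_cancel h12)))
      (by
        intro z hz h
        have h6 : (m j z)⁻¹ = 0 := by
          have h7 : c + (m j z)⁻¹ = c + 0 := by rw [add_zero]; exact h
          exact add_left_cancel h7
        exact inv_ne_zero (hm0 j hj z hz) h6) hκ hκ1 z hz
    beta_reduce at h5
    rw [hmq j hj] at h5
    have h6 : ‖it v0 (j + 1) c - c‖ ≤ M := by
      refine (norm_sub_le _ _).trans ?_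
      rw [hM]
      have := hR (j + 1)
      have := le_abs_self R
      linarith
    refine (h5.trans (mul_le_mul_of_nonneg_left h6 (by positivity))).trans_lt hκ2
  have hsub : ball q (min (κ * δ') ε0) ⊆ ball q (κ * δ') := ball_subset_ball (min_le_left _ _)
  have hκδ : ball q (κ * δ') ⊆ ball q δ' := ball_subset_ball (by nlinarith)
  show ∃ h : ℕ → ℂ → ℂ, (∀ z ∈ ball (it v0 (n + 1) c) (min (κ * δ') ε0), h n z = z) ∧ _
  rw [← hq]
  refine ⟨fun j z => if j < n then c + (m j z)⁻¹ else z, ?_, ?_, ?_⟩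
  · intro z _
    show (if n < n then _ else z) = z
    rw [if_neg (lt_irrefl n)]
  · intro j hj
    rcases hj.lt_or_eq with hj | rfl
    · refine ⟨?_, ?_, ?_⟩
      · show (if j < n then c + (m j q)⁻¹ else q) = it v0 (j + 1) c
        rw [if_pos hj, hmq j hj]
      · refine ((hdif j hj).mono (hsub.trans hκδ)).congr fun z _ => ?_
        show (if j < n then c + (m j z)⁻¹ else z) = _
        rw [if_pos hj]
      · intro z hz
        show (if j < n then c + (m j z)⁻¹ else z) ∈ ball (it v0 (j + 1) c) ε0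
        rw [if_pos hj, mem_ball_iff_norm]
        exact hest j hj z (hsub hz)
    · refine ⟨?_, ?_, ?_⟩
      · show (if j < j then _ else q) = it v0 (j + 1) c
        rw [if_neg (lt_irrefl j), hq]
      · refine differentiableOn_id.congr fun z _ => ?_
        show (if j < j then _ else z) = _
        rw [if_neg (lt_irrefl j)]
        rfl
      · intro z hz
        show (if j < j then _ else z) ∈ ball (it v0 (j + 1) c) ε0
        rw [if_neg (lt_irrefl j), ← hq]
        exact ball_subset_ball (min_le_right _ _) hz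
  · intro j hj z hz
    have hz' := hsub hz
    show gg (pol v0.1) (pol v0.2) (if j < n then c + (m j z)⁻¹ else z) =
      if j + 1 < n then c + (m (j + 1) z)⁻¹ else z
    rw [if_pos hj]
    have h1 := (hHr j hj z (hκδ hz')).1
    rw [hcoe j hj z (hκδ hz')] at h1
    have h2 : (pol v0.2).eval (c + (m j z)⁻¹) ≠ 0 := by
      have h3 := hden (j + 1) (c + (m j z)⁻¹) (by
        rw [mem_ball_iff_norm]
        exact hest j hj z hz')
      rw [ev_pol] at h3
      intro h4
      rw [h4, norm_zero] at h3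
      linarith
    have h3 : H (j + 1) z = ((if j + 1 < n then c + (m (j + 1) z)⁻¹ else z : ℂ) :
        OnePoint ℂ) := by
      by_cases hj1 : j + 1 < n
      · rw [if_pos hj1, hcoe (j + 1) hj1 z (hκδ hz')]
      · rw [if_neg hj1, show j + 1 = n by omega, hHn z (hκδ hz')]
    have h4 := rat_coe_of_ne (P := pol v0.1) h2
    have h5 : (((pol v0.1).eval (c + (m j z)⁻¹) / (pol v0.2).eval (c + (m j z)⁻¹) : ℂ) :
        OnePoint ℂ) = H (j + 1) z := by
      rw [← h1]
      exact h4.symm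
    rw [h3] at h5
    exact OnePoint.coe_eq_coe.1 h5

theorem red_conm {d m : ℕ} (hd : 2 ≤ d) {v0 : E d} (hF : Fam d m v0) {c : ℂ} (hw : wv v0 c = 0)
    (hS : Pool.Agent.H44.RG.Summ (Rf v0) (Rf v0 (c : OnePoint ℂ)))
    (hC : Pool.Agent.H44.RG.Con (Rf v0) (Rf v0 (c : OnePoint ℂ))) :
    ∃ (B : ℕ → ℂ) (K : Set ℂ) (δ : ℝ), Good v0 (fun k => it v0 k c) B K δ := by
  obtain ⟨ε1, δ, S, P⟩ := pl_exm hd hF hw hS hC
  have hε1 := P.hε
  obtain ⟨R, hR⟩ := P.bdd
  obtain ⟨β, hβ, hden⟩ := P.den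
  obtain ⟨K, hK⟩ : ∃ K : Set ℂ, K = closure (⋃ k, ball (it v0 k c) ε1) := ⟨_, rfl⟩
  have hKb : K ⊆ closedBall 0 (R + ε1) := by
    rw [hK]
    refine closure_minimal ?_ isClosed_closedBall
    intro z hz
    obtain ⟨k, hk⟩ := mem_iUnion.1 hz
    rw [mem_closedBall_zero_iff]
    rw [mem_ball_iff_norm] at hk
    have h1 := hR k
    have h2 := norm_add_le (z - it v0 k c) (it v0 k c)
    rw [sub_add_cancel] at h2
    linarith
  have hKd : K ⊆ {z | β ≤ ‖ev v0.2 z‖} := by
    have hcl : IsClosed {z : ℂ | β ≤ ‖ev v0.2 z‖} := by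
      have h1 : Continuous (fun z : ℂ => ev v0.2 z) := by
        unfold ev
        fun_prop
      exact isClosed_le continuous_const h1.norm
    rw [hK]
    refine closure_minimal ?_ hcl
    intro z hz
    obtain ⟨k, hk⟩ := mem_iUnion.1 hz
    exact hden k z hk
  have hmem : ∀ k, ∀ z ∈ ball (it v0 k c) ε1, z ∈ K := by
    intro k z hz
    rw [hK]
    exact subset_closure (mem_iUnion.2 ⟨k, hz⟩)
  refine ⟨fun k => 1 / trD v0 k (it v0 1 c), K, δ, hd, P.cop, P.deg,
    ⟨⟨R, hR⟩, ⟨β, hβ, fun k => hden k _ (mem_ball_self hε1)⟩,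
      fun k => (P.orb (k + 1) k (Nat.lt_succ_self k)).2,
      fun k => red_B P.orb k (P.tr (k + 1)), P.crit, ?_, ?_⟩,
    (isCompact_closedBall _ _).of_isClosed_subset (by rw [hK]; exact isClosed_closure) hKb,
    ?_, P.hδ, ?_, P.fdeg⟩
  · show 1 / trD v0 0 (it v0 1 c) = 1
    have h1 : trD v0 0 (it v0 1 c) = 1 := by simp [trD]
    rw [h1, div_one]
  · refine P.sm.congr fun k => ?_
    rw [norm_div, norm_one, one_div]
  · intro z hz h1
    have h2 : β ≤ ‖ev v0.2 z‖ := hKd hz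
    rw [h1, norm_zero] at h2
    linarith
  · refine (Nat.frequently_atTop_iff_infinite.2 P.inf).mono ?_
    intro n hn
    obtain ⟨g, hgn, hgj, hgr⟩ := P.con n hn
    have hit : ∀ z ∈ ball (it v0 (n + 1) c) δ, ∀ j ≤ n, it v0 j (g 0 z) = g j z := by
      intro z hz j
      induction j with
      | zero =>
        intro _
        rfl
      | succ j ih =>
        intro hj
        have h1 := hgr j (by omega) z hz
        rw [← h1, ← ih (by omega)]
        show ev v0.1 (it v0 j (g 0 z)) / ev v0.2 (it v0 j (g 0 z)) = _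
        unfold gg
        rw [ev_pol, ev_pol]
    refine ⟨g 0, (hgj 0 (Nat.zero_le n)).2.1, (hgj 0 (Nat.zero_le n)).1, ?_, ?_⟩
    · intro z hz j hj
      rw [hit z hz j hj]
      exact hmem (j + 1) _ ((hgj j hj).2.2 hz)
    · intro z hz
      rw [hit z hz n le_rfl, hgn z hz]

end Pool.Agent.H79.GP
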