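import Pool.Agent.H79.GP.GHO
import Pool.Agent.H79.GP.GBH
import Pool.Agent.H79.GP.GTF
import Pool.Agent.H79.GP.GRC
import Pool.Agent.H79.GP.GNU
import Pool.Agent.H44.RG.GTD

/-!
# Module GMA: in the family almost no map has a good critical value

`FA d m x`: the coefficient vector of `a / b`, `a` with the coefficients `x.1`, `b` monic of degree `d - m` with the lower coefficients `x.2`.

PROOF of `fam_null`. `FA (x + w) = FA x + FL w`, `FL w ∈ Dm d m`, `‖FL w‖ = ‖w‖`, and every element of `Dm d m` is some `FL w`. `(pol (FA x).2).natDegree = d - m`, so `Fam d m (FA x)` for `x` in the set. Let `q` run over a countable dense subset of `ℂ`, `k, N : ℕ`, and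
`S = S q k N` = set of `x` as in the statement with a critical point `c` such that `‖c - q‖ < 1 / (k + 1)`, `c` is the only zero of `wv (FA x)` in `closedBall q (1 / (k + 1))`, `TG (Rf (FA x)) (Rf (FA x) c)` and `∀ j, (Rf (FA x))^[j] c ∉ D`, `D = {z : ℂ | N < ‖z‖}` (as a subset of `OnePoint ℂ`, image of the open set). The set of the statement is contained in `⋃ q k N, S q k N`
(`wv (FA x)` is the evaluation of a nonzero polynomial, finitely many zeros; `fam_orb` (GRD): the orbit of `c` is bounded). So it suffices to show `volume (S q k N) = 0`: `null_of_holesF` with `F = (Fin (d + 1) → ℂ) × (Fin (d - m) → ℂ)`. Let `x0 ∈ S`, `v0 = FA x0`, `c`. Case `Con`: `red_conm` (GRC): `Good`, `tf_ne_m`: `w1 ∈ Dm d m`, `holeD` (GHO) with the open set `{z | N < ‖z‖}`.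
Case `UL`: `red_ulm` (GRD), `tf_ne_bm`, `hole_bD` (GBH). In both cases: `c0, ρ2 > 0` and for every `R > 0` an `r < R`, `v2 = v0 + s • w1` with `closedBall v2 (c0 r) ⊆ closedBall v0 r` and for `v ∈ closedBall v2 (c0 r)` all zeros of `wv v` in `ball c ρ2` enter `D`. As `w1 = FL u1`, `v2 = FA (x0 + s • u1)`: with `x2 = x0 + s • u1`, the `x ∈ closedBall x2 (c0 r)` have `FA x ∈ closedBall v2 (c0 r)`, `closedBall x2 (c0 r) ⊆ closedBall x0 r`. The hole in the unit ball: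
`H = ball ((2 r)⁻¹ • (x2 - x0)) (c0 / 2)` for the scale `2 r` as in `hole_ul` (H79/MZ/HLC, end of the proof), `volume H = volume (ball 0 (c0 / 2))`. For `x = x0 + (2 r) • w`, `w ∈ H`, suppose `x ∈ S` with the critical point `ĉ`. If `r` is small, `ĉ ∈ ball c ρ2`: STAY: for `v` near `v0` every zero of `wv v` in `closedBall q (1 / (k + 1))` is in `ball c ρ2` (compactness: `wv v0` has no zero in `closedBall q (1/(k+1)) \ ball c ρ2`,
`wv` is jointly continuous). So the orbit of `ĉ` enters `D` (`Reach`, `reach_rat` as in HLC): contradiction.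
-/

set_option autoImplicit false

open MeasureTheory Metric Set Filter Topology Polynomial

namespace Pool.Agent.H79.GP

open Pool.Agent.H44.Fatou Pool.Agent.H32.BT Pool.Agent.H79.Eul Pool.Agent.H79.Par Pool.Agent.H61.TT
open Pool.Agent.H35.EX Pool.Agent.H44.RR Pool.Agent.H79.MZ

/-- the coefficient vector of `a / b`, `b` monic of degree `d - m` -/
noncomputable def FA (d m : ℕ) (x : (Fin (d + 1) → ℂ) × (Fin (d - m) → ℂ)) : E d :=
  (x.1, fun i => if h : (i : ℕ) < d - m then x.2 ⟨i, h⟩ else if (i : ℕ) = d - m then 1 else 0)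

/-- the linear part of `FA` -/
noncomputable def FL (d m : ℕ) (x : (Fin (d + 1) → ℂ) × (Fin (d - m) → ℂ)) : E d :=
  (x.1, fun i => if h : (i : ℕ) < d - m then x.2 ⟨i, h⟩ else 0)

theorem fa_add (d m : ℕ) (x w : (Fin (d + 1) → ℂ) × (Fin (d - m) → ℂ)) :
    FA d m (x + w) = FA d m x + FL d m w := by
  refine Prod.ext rfl ?_
  funext i
  show (if h : (i : ℕ) < d - m then (x + w).2 ⟨i, h⟩ else if (i : ℕ) = d - m then (1 : ℂ) else 0) =
    (if h : (i : ℕ) < d - m then x.2 ⟨i, h⟩ else if (i : ℕ) = d - m then (1 : ℂ) else 0) +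
      (if h : (i : ℕ) < d - m then w.2 ⟨i, h⟩ else 0)
  by_cases h : (i : ℕ) < d - m
  · rw [dif_pos h, dif_pos h, dif_pos h]
    rfl
  · rw [dif_neg h, dif_neg h, dif_neg h, add_zero]

theorem fl_smul (d m : ℕ) (s : ℂ) (w : (Fin (d + 1) → ℂ) × (Fin (d - m) → ℂ)) :
    FL d m (s • w) = s • FL d m w := by
  refine Prod.ext rfl ?_
  funext i
  show (if h : (i : ℕ) < d - m then (s • w).2 ⟨i, h⟩ else 0) =
    s • (if h : (i : ℕ) < d - m then w.2 ⟨i, h⟩ else 0)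
  by_cases h : (i : ℕ) < d - m
  · rw [dif_pos h, dif_pos h]
    rfl
  · rw [dif_neg h, dif_neg h, smul_zero]

theorem fl_norm (d m : ℕ) (hmd : m ≤ d) (w : (Fin (d + 1) → ℂ) × (Fin (d - m) → ℂ)) :
    ‖FL d m w‖ = ‖w‖ := by
  rw [Prod.norm_def, Prod.norm_def]
  have h1 : ‖(FL d m w).2‖ = ‖w.2‖ := by
    apply le_antisymm
    · rw [pi_norm_le_iff_of_nonneg (norm_nonneg _)]
      intro i
      show ‖(if h : (i : ℕ) < d - m then w.2 ⟨i, h⟩ else (0 : ℂ))‖ ≤ _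
      by_cases h : (i : ℕ) < d - m
      · rw [dif_pos h]
        exact norm_le_pi_norm w.2 _
      · rw [dif_neg h, norm_zero]
        exact norm_nonneg _
    · rw [pi_norm_le_iff_of_nonneg (norm_nonneg _)]
      intro i
      have hi : (i : ℕ) < d + 1 := by omega
      have h2 := norm_le_pi_norm (FL d m w).2 ⟨i, hi⟩
      have h3 : (FL d m w).2 ⟨i, hi⟩ = w.2 i := by
        show (if h : (i : ℕ) < d - m then w.2 ⟨i, h⟩ else (0 : ℂ)) = _
        rw [dif_pos i.2]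
      rw [h3] at h2
      exact h2
  rw [h1]
  rfl

theorem fl_surj {d m : ℕ} {w : E d} (hw : w ∈ Dm d m) : ∃ u, FL d m u = w := by
  refine ⟨(w.1, fun i => w.2 ⟨i, by omega⟩), Prod.ext rfl ?_⟩
  funext i
  show (if h : (i : ℕ) < d - m then w.2 ⟨i, _⟩ else (0 : ℂ)) = w.2 i
  by_cases h : (i : ℕ) < d - m
  · rw [dif_pos h]
  · rw [dif_neg h]
    exact (hw i (by omega)).symm

theorem fa_sub (d m : ℕ) (x y : (Fin (d + 1) → ℂ) × (Fin (d - m) → ℂ)) :
    FA d m x - FA d m y = FL d m (x - y) := by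
  have h := fa_add d m y (x - y)
  rw [add_sub_cancel] at h
  rw [h, add_sub_cancel_left]

theorem fa_fam {d m : ℕ} (hm : 2 ≤ m) (hmd : m ≤ d) {x : (Fin (d + 1) → ℂ) × (Fin (d - m) → ℂ)}
    (hc : IsCoprime (pol (FA d m x).1) (pol (FA d m x).2)) (ha : (pol (FA d m x).1).natDegree = d) :
    Fam d m (FA d m x) := by
  refine ⟨hm, hmd, hc, ha, ?_⟩
  apply natDegree_eq_of_le_of_coeff_ne_zero
  · rw [natDegree_le_iff_coeff_eq_zero]
    intro n hn
    rw [pol_coeff']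
    split_ifs with h
    · show (if h : n < d - m then x.2 ⟨n, h⟩ else if n = d - m then (1 : ℂ) else 0) = 0
      rw [dif_neg (by omega), if_neg (by omega)]
    · rfl
  · rw [pol_coeff', dif_pos (by omega)]
    show (if h : d - m < d - m then x.2 ⟨d - m, h⟩ else if d - m = d - m then (1 : ℂ) else 0) ≠ 0
    rw [dif_neg (by omega), if_pos rfl]
    exact one_ne_zero

/-- the part of the plane outside the ball of radius `N` -/
def Dn (N : ℕ) : Set ℂ := {z | (N : ℝ) < ‖z‖}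

theorem dn_open (N : ℕ) : IsOpen (Dn N) := isOpen_lt continuous_const continuous_norm

theorem dn_ne (N : ℕ) : (Dn N).Nonempty := by
  refine ⟨((N : ℂ) + 1), ?_⟩
  show (N : ℝ) < ‖(N : ℂ) + 1‖
  have : ((N : ℂ) + 1) = ((N + 1 : ℕ) : ℂ) := by push_cast; rfl
  rw [this, Complex.norm_natCast]
  push_cast
  linarith

/-- the pieces of the exceptional set -/
def FS (d m : ℕ) (q : ℂ) (k N : ℕ) : Set ((Fin (d + 1) → ℂ) × (Fin (d - m) → ℂ)) :=
  {x | IsCoprime (pol (FA d m x).1) (pol (FA d m x).2) ∧ (pol (FA d m x).1).natDegree = d ∧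
    ∃ c : ℂ, wv (FA d m x) c = 0 ∧ ‖c - q‖ < 1 / ((k : ℝ) + 1) ∧
      (∀ c', wv (FA d m x) c' = 0 → ‖c' - q‖ ≤ 1 / ((k : ℝ) + 1) → c' = c) ∧
      Pool.Agent.H44.RG.TG (Rf (FA d m x)) (Rf (FA d m x) (c : OnePoint ℂ)) ∧
      ∀ j : ℕ, (Rf (FA d m x))^[j] (c : OnePoint ℂ) ∉ ((↑) : ℂ → OnePoint ℂ) '' Dn N}

/-- the holes, in the family -/
theorem fs_hole {d m : ℕ} (hd : 2 ≤ d) {v0 : E d} (hF : Fam d m v0) {c : ℂ} (hw : wv v0 c = 0)
    (hT : Pool.Agent.H44.RG.TG (Rf v0) (Rf v0 (c : OnePoint ℂ))) {D : Set ℂ} (hD : IsOpen D)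
    (hDn : D.Nonempty) : ∃ v1 ∈ Dm d m,
    ∃ c0 : ℝ, 0 < c0 ∧ ∃ ρ2 : ℝ, 0 < ρ2 ∧ ∀ R : ℝ, 0 < R → ∃ r : ℝ, 0 < r ∧ r < R ∧ ∃ v2 : E d,
      (∃ s : ℂ, v2 = v0 + s • v1) ∧ closedBall v2 (c0 * r) ⊆ closedBall v0 r ∧
        ∀ v ∈ closedBall v2 (c0 * r), ∀ z ∈ ball c ρ2, wv v z = 0 →
          ∃ (n : ℕ), ∃ w ∈ D, Reach v n z w := by
  obtain ⟨hS, hC | ⟨q, hq, hU⟩⟩ := hT
  · obtain ⟨B, K, δ, hG⟩ := red_conm hd hF hw hS hC
    obtain ⟨v1, hv1, hv1'⟩ := tf_ne_m hG hF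
    exact ⟨v1, hv1, holeD hG hv1' hD hDn⟩
  · obtain ⟨B, K, δ, M, T, hG⟩ := red_ulm hd hF hw hS hq hU
    obtain ⟨v1, hv1, hv1'⟩ := tf_ne_bm hG hF
    exact ⟨v1, hv1, hole_bD hG hv1' hD hDn⟩

theorem fs_null {d m : ℕ} (hm : 2 ≤ m) (hmd : m ≤ d) (q : ℂ) (k N : ℕ) :
    volume (FS d m q k N) = 0 := by
  have hH : (volume : Measure ((Fin (d + 1) → ℂ) × (Fin (d - m) → ℂ))).IsAddHaarMeasure :=
    Measure.prod.instIsAddHaarMeasure (volume : Measure (Fin (d + 1) → ℂ))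
      (volume : Measure (Fin (d - m) → ℂ))
  apply null_of_holesF
  rintro x0 ⟨hcop, hdeg, c, hw, hqc, huniq, hT, horb⟩
  have hF := fa_fam hm hmd hcop hdeg
  obtain ⟨v0, hv0⟩ : ∃ v0, v0 = FA d m x0 := ⟨_, rfl⟩
  rw [← hv0] at hw huniq hT horb hF
  obtain ⟨v1, hv1, c0, hc0, ρ2, hρ2, hh⟩ := fs_hole (by omega) hF hw hT (dn_open N) (dn_ne N)
  obtain ⟨u1, hu1⟩ := fl_surj hv1
  -- the critical points stay
  have hstay : ∀ᶠ v in 𝓝 v0, ∀ z ∈ closedBall q (1 / ((k : ℝ) + 1)) \ ball c ρ2, wv v z ≠ 0 := by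
    apply IsCompact.eventually_forall_of_forall_eventually
      ((isCompact_closedBall q (1 / ((k : ℝ) + 1))).diff isOpen_ball)
    rintro z ⟨hz1, hz2⟩
    have h1 : wv v0 z ≠ 0 := by
      intro h
      apply hz2
      rw [huniq z h (mem_closedBall_iff_norm.1 hz1)]
      exact mem_ball_self hρ2
    exact (wv_cont.continuousAt (x := (v0, z))).eventually_ne h1
  obtain ⟨ρ3, hρ3, hst⟩ := Metric.eventually_nhds_iff_ball.1 hstay
  refine ⟨volume (ball (0 : (Fin (d + 1) → ℂ) × (Fin (d - m) → ℂ)) (c0 / 2)),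
    measure_ball_pos volume _ (by positivity), ?_⟩
  rw [Filter.frequently_iff]
  intro U hU
  obtain ⟨u, hu, hUu⟩ := mem_nhdsGT_iff_exists_Ioo_subset.1 hU
  have hu0 : 0 < u := hu
  obtain ⟨r, hr, hru, v2, ⟨s, hs⟩, hv2, hz⟩ := hh (min (u / 2) ρ3) (lt_min (by positivity) hρ3)
  have hr1 : r < u / 2 := hru.trans_le (min_le_left _ _)
  have hr2 : r < ρ3 := hru.trans_le (min_le_right _ _)
  obtain ⟨x2, hx2⟩ : ∃ x2, x2 = x0 + s • u1 := ⟨_, rfl⟩
  have hx2' : FA d m x2 = v2 := by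
    rw [hx2, fa_add, fl_smul, hu1, hs, hv0]
  have key : ∀ w ∈ ball ((2 * r)⁻¹ • (x2 - x0)) (c0 / 2),
      FA d m (x0 + (2 * r) • w) ∈ closedBall v2 (c0 * r) := by
    intro w hwm
    rw [mem_ball, dist_eq_norm] at hwm
    rw [mem_closedBall, dist_eq_norm, ← hx2', fa_sub, fl_norm d m hmd]
    have h2 : x0 + (2 * r) • w - x2 = (2 * r) • (w - (2 * r)⁻¹ • (x2 - x0)) := by
      rw [smul_sub, smul_inv_smul₀ (by positivity)]
      abel
    rw [h2, norm_smul, Real.norm_of_nonneg (by positivity)]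
    nlinarith
  refine ⟨2 * r, hUu ⟨by positivity, by linarith⟩, ball ((2 * r)⁻¹ • (x2 - x0)) (c0 / 2),
    measurableSet_ball, ?_, ?_, ?_⟩
  · intro w hwm
    have h2 := hv2 (key w hwm)
    rw [mem_closedBall, dist_eq_norm, hv0, fa_sub, fl_norm d m hmd, add_sub_cancel_left,
      norm_smul, Real.norm_of_nonneg (by positivity)] at h2
    rw [mem_ball_zero_iff]
    nlinarith
  · exact (Measure.addHaar_ball_center volume _ _).ge
  · rintro w hwm ⟨-, -, c', hw', hqc', -, -, horb'⟩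
    have h1 := key w hwm
    have h2 : c' ∈ ball c ρ2 := by
      by_contra hcon
      refine hst _ (mem_ball.2 ((mem_closedBall.1 (hv2 h1)).trans_lt hr2)) c'
        ⟨mem_closedBall_iff_norm.2 hqc'.le, hcon⟩ hw'
    obtain ⟨n, w', hw'D, hreach⟩ := hz _ h1 c' h2 hw'
    apply horb' n
    refine ⟨w', hw'D, ?_⟩
    symm
    refine reach_rat (pol_deg _) (pol_deg _) n c' w' ?_
    rw [cf_pol, cf_pol]
    exact hreach

theorem fam_null {d m : ℕ} (hm : 2 ≤ m) (hmd : m ≤ d) :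
    volume {x : (Fin (d + 1) → ℂ) × (Fin (d - m) → ℂ) |
      IsCoprime (pol (FA d m x).1) (pol (FA d m x).2) ∧ (pol (FA d m x).1).natDegree = d ∧
      ∃ c : ℂ, wv (FA d m x) c = 0 ∧
        Pool.Agent.H44.RG.TG (Rf (FA d m x)) (Rf (FA d m x) (c : OnePoint ℂ))} = 0 := by
  obtain ⟨Q, hQc, hQd⟩ := TopologicalSpace.exists_countable_dense ℂ
  have hun : volume (⋃ q ∈ Q, ⋃ k : ℕ, ⋃ N : ℕ, FS d m q k N) = 0 := by
    rw [measure_biUnion_null_iff hQc]
    intro q _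
    rw [measure_iUnion_null_iff]
    intro k
    rw [measure_iUnion_null_iff]
    intro N
    exact fs_null hm hmd q k N
  refine measure_mono_null ?_ hun
  rintro x ⟨hcop, hdeg, c, hw, hT⟩
  have hF := fa_fam hm hmd hcop hdeg
  -- isolate the critical point
  have hfin : {z : ℂ | wv (FA d m x) z = 0}.Finite := by
    have hW : ww (pol (FA d m x).1) (pol (FA d m x).2) ≠ 0 := by
      apply wr_ne_zero hcop
      rw [hdeg]
      exact le_max_of_le_left (by omega)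
    refine ((ww (pol (FA d m x).1) (pol (FA d m x).2)).roots.toFinset.finite_toSet).subset ?_
    intro z hz
    have hz' : wv (FA d m x) z = 0 := hz
    rw [wv_pol] at hz'
    rw [Finset.mem_coe, Multiset.mem_toFinset, mem_roots hW]
    exact hz'
  have hiso : ∃ ε : ℝ, 0 < ε ∧ ∀ c', wv (FA d m x) c' = 0 → ‖c' - c‖ < ε → c' = c := by
    have h1 : {z : ℂ | wv (FA d m x) z = 0} \ {c} ∈ {t : Set ℂ | t.Finite} := hfin.subset sdiff_subset
    have h2 : ({z : ℂ | wv (FA d m x) z = 0} \ {c})ᶜ ∈ 𝓝 c := by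
      apply (Set.Finite.isClosed h1).isOpen_compl.mem_nhds
      rintro ⟨-, h3⟩
      exact h3 rfl
    obtain ⟨ε, hε, h3⟩ := Metric.mem_nhds_iff.1 h2
    refine ⟨ε, hε, fun c' hc' hlt => ?_⟩
    by_contra hne
    exact h3 (mem_ball_iff_norm.2 hlt) ⟨hc', hne⟩
  obtain ⟨ε, hε, hiso⟩ := hiso
  obtain ⟨k, hk⟩ := exists_nat_one_div_lt (show (0 : ℝ) < ε / 2 by positivity)
  have hk0 : (0 : ℝ) < 1 / ((k : ℝ) + 1) := by positivity
  obtain ⟨q, hqQ, hq⟩ := hQd.exists_dist_lt c hk0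
  rw [dist_eq_norm] at hq
  -- the orbit is bounded
  obtain ⟨hfi, hX⟩ := fam_orb (by omega) hF hT.1
  obtain ⟨R, hR⟩ := Pool.Agent.H44.RG.pl_bdd hfi hX
  obtain ⟨N, hN⟩ := exists_nat_ge R
  refine mem_biUnion hqQ (mem_iUnion.2 ⟨k, mem_iUnion.2 ⟨N, hcop, hdeg, c, hw, hq, ?_, hT, ?_⟩⟩)
  · intro c' hc' hc'q
    apply hiso c' hc'
    have h1 : c' - c = (c' - q) - (c - q) := by ring
    rw [h1]
    refine (norm_sub_le _ _).trans_lt ?_
    linarith
  · rintro j ⟨z, hz, hz'⟩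
    rw [(orb_all hfi).2 j] at hz'
    have h1 := OnePoint.coe_eq_coe.1 hz'
    have h2 : (N : ℝ) < ‖z‖ := hz
    rw [h1] at h2
    have := hR j
    linarith

end Pool.Agent.H79.GP
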