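import Pool.Agent.H79.MZ.BDF
import Pool.Agent.H44.RR.RSN
import Pool.Agent.H44.RR.ATM

/-!
# Rational maps with a superattracting fixed point at infinity: definitions

`a / b` with `b.natDegree = d - m`, `a.natDegree = d`: a fixed point at infinity of local degree `m` (`m = d`: polynomials).
`SerN`: the condition `Ser` with the vanishing only for the `η` of degree at most `N`. `SerF`: only what is used of it: the quadratic
differential is integrable and fixed by the push forward. `Dm d m`: the directions of the family.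
-/

set_option autoImplicit false

open MeasureTheory Metric Set Polynomial Filter Topology

namespace Pool.Agent.H79.GP

open Pool.Agent.H44.Fatou Pool.Agent.H32.BT Pool.Agent.H79.Eul Pool.Agent.H79.Par Pool.Agent.H61.TT
open Pool.Agent.H35.EX Pool.Agent.H44.RR Pool.Agent.H79.MZ

/-- a vanishing combination along the orbit of a critical point, for the `η` of degree at most `N` -/
structure SerN (N : ℕ) (a b : Polynomial ℂ) (p B : ℕ → ℂ) : Prop where
  pb : ∃ R : ℝ, ∀ k, ‖p k‖ ≤ R
  bb : ∃ δ : ℝ, 0 < δ ∧ ∀ k, δ ≤ ‖b.eval (p k)‖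
  orb : ∀ k, gg a b (p k) = p (k + 1)
  hB : ∀ k, B (k + 1) * dg a b (p (k + 1)) = B k
  crit : dg a b (p 0) = 0
  B0 : B 0 = 1
  sm : Summable (fun k => ‖B k‖)
  van : ∀ η : Polynomial ℂ, η.natDegree ≤ N →
    ∑' k, B k * (η.eval (p k) / b.eval (p k) ^ 2) = 0

/-- the quadratic differential of a critical orbit is integrable and fixed by the push forward -/
structure SerF (a b : Polynomial ℂ) (p B : ℕ → ℂ) : Prop where
  orb : ∀ k, gg a b (p k) = p (k + 1)
  hB : ∀ k, B (k + 1) * dg a b (p (k + 1)) = B k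
  crit : dg a b (p 0) = 0
  B0 : B 0 = 1
  sm : Summable (fun k => ‖B k‖)
  fin : ∫⁻ x, ‖qq p B x‖ₑ ≠ ⊤
  push : ∀ᵐ x : ℂ, qq p B x = ∑ y ∈ fs a b x, qq p B y / dg a b y ^ 2

/-- the directions which keep `b` monic of degree `d - m` -/
def Dm (d m : ℕ) : Set (E d) := {w | ∀ i : Fin (d + 1), d - m ≤ (i : ℕ) → w.2 i = 0}

/-- the maps of the family: `a` of degree `d`, `b` monic of degree `d - m` -/
structure Fam (d m : ℕ) (v0 : E d) : Prop where
  hm : 2 ≤ m
  hmd : m ≤ d
  cop : IsCoprime (pol v0.1) (pol v0.2)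
  ha : (pol v0.1).natDegree = d
  hb : (pol v0.2).natDegree = d - m

end Pool.Agent.H79.GP
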